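import Pool.Agent.U68.AR.Sep

/-!
# Artin groups on arbitrary sets
-/

set_option autoImplicit false

namespace Pool.Agent.U68.AR

open Pool.Agent.Y110.FJ Pool.Agent.Y462.SS Pool.Agent.Helper705_SA

/-- the relations `s t s ... = t s t ...` with `M s t` factors on both sides; the label `0` stands for
infinity: then there is no relation (the empty product equals the empty product) -/
def ArtinRel {S : Type} (M : S → S → ℕ) : Set (FreeGroup S) :=
  {r | ∃ s t, r = alt (FreeGroup.of s) (FreeGroup.of t) (M s t) *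
    (alt (FreeGroup.of t) (FreeGroup.of s) (M s t))⁻¹}

/-- the Artin group -/
abbrev Artin {S : Type} (M : S → S → ℕ) : Type := PresentedGroup (ArtinRel M)

variable {C : ∀ (G : Type) [Group G], Prop}

/-- the comparison -/
theorem exists_cmp {S S' : Type} (e : S' → S) (he : Function.Injective e) (M : S → S → ℕ) (T : Set S)
    (hT : Set.range e = T) : Nonempty (Artin (fun i j => M (e i) (e j)) ≃* AK M T) := by
  classical
  have heT : ∀ i, e i ∈ T := fun i => by rw [← hT]; exact ⟨i, rfl⟩
  obtain ⟨f, hf⟩ : ∃ f : Artin (fun i j => M (e i) (e j)) →* AK M T, ∀ i,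
      f (PresentedGroup.of i) = gen M T (e i) := by
    refine ⟨PresentedGroup.toGroup (f := fun i => gen M T (e i)) ?_, fun i => PresentedGroup.toGroup.of _⟩
    rintro r ⟨i, j, rfl⟩
    rw [map_mul, map_inv, map_alt, map_alt, FreeGroup.lift_apply_of, FreeGroup.lift_apply_of]
    exact mul_inv_eq_one.2 (gen_rel (heT i) (heT j))
  have hrel : ∀ i j : S', alt (PresentedGroup.of i : Artin (fun i j => M (e i) (e j))) (PresentedGroup.of j)
      (M (e i) (e j)) = alt (PresentedGroup.of j) (PresentedGroup.of i) (M (e i) (e j)) := by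
    intro i j
    have h1 : PresentedGroup.mk (ArtinRel (fun i j => M (e i) (e j)))
        (alt (FreeGroup.of i) (FreeGroup.of j) (M (e i) (e j)) *
        (alt (FreeGroup.of j) (FreeGroup.of i) (M (e i) (e j)))⁻¹) = 1 :=
      PresentedGroup.one_of_mem ⟨i, j, rfl⟩
    rw [map_mul, map_inv, mul_inv_eq_one, map_alt, map_alt] at h1
    exact h1
  obtain ⟨g0, hg0⟩ : ∃ g0 : S → Artin (fun i j => M (e i) (e j)), g0 = fun s =>
      if h : ∃ i, e i = s then PresentedGroup.of h.choose else 1 := ⟨_, rfl⟩
  have hg1 : ∀ i, g0 (e i) = PresentedGroup.of i := by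
    intro i
    have h : ∃ j, e j = e i := ⟨i, rfl⟩
    rw [hg0]
    show (if h : ∃ j, e j = e i then PresentedGroup.of h.choose else 1) = _
    rw [dif_pos h]
    congr 1
    exact he h.choose_spec
  obtain ⟨g, hg⟩ := exists_lift (M := M) (T := T) g0
    (fun s hs t ht => by
      rw [← hT] at hs ht
      obtain ⟨i, rfl⟩ := hs
      obtain ⟨j, rfl⟩ := ht
      rw [hg1, hg1]
      exact hrel i j)
    (fun s hs => by
      rw [hg0]
      exact dif_neg (fun h => hs (by obtain ⟨i, rfl⟩ := h; exact heT i)))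
  refine ⟨MonoidHom.toMulEquiv f g ?_ ?_⟩
  · refine PresentedGroup.ext fun i => ?_
    rw [MonoidHom.comp_apply, hf, hg, hg1]
    rfl
  · refine ak_ext fun s hs => ?_
    rw [← hT] at hs
    obtain ⟨i, rfl⟩ := hs
    rw [MonoidHom.comp_apply, hg, hg1, hf]
    rfl

theorem c_iff (hC : ClosedE C) {S S' : Type} (e : S' → S) (he : Function.Injective e)
    (M : S → S → ℕ) (T : Set S) (hT : Set.range e = T) :
    C (Artin (fun i j => M (e i) (e j))) ↔ C (AK M T) := by
  obtain ⟨φ⟩ := exists_cmp e he M T hT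
  exact ⟨fun h => hC.base.of_injective _ _ φ.symm.toMonoidHom φ.symm.injective h,
    fun h => hC.base.of_injective _ _ φ.toMonoidHom φ.injective h⟩

/-- **directed unions** -/
theorem ak_colim (hC : ClosedE C) {S : Type} (M : S → S → ℕ)
    (h : ∀ F : Finset S, C (AK M (F : Set S))) : C (AK M Set.univ) := by
  classical
  have hid : ∀ (T : Set S) (hT : T ⊆ T) (w : AK M T), inc hT w = w := by
    intro T hT
    have : (inc hT : AK M T →* AK M T) = MonoidHom.id _ :=
      ak_ext fun s hs => by rw [inc_gen _ hs]; rfl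
    exact fun w => DFunLike.congr_fun this w
  refine hC.base.colim (Finset S) (fun i j => ⟨i ∪ j, Finset.subset_union_left, Finset.subset_union_right⟩)
    (fun F => AK M (F : Set S)) (fun i j hij => inc (by exact_mod_cast hij)) (AK M Set.univ)
    (fun F => inc (Set.subset_univ _)) ?_ ?_ ?_ ?_ ?_ h
  · intro i hi x
    exact hid _ _ x
  · intro i j k hij hjk x
    exact inc_inc _ _ x
  · intro i j hij x
    exact inc_inc _ _ x
  · intro y
    let H : Subgroup (AK M (Set.univ : Set S)) :=
      { carrier := {y | ∃ F : Finset S, ∃ x : AK M (F : Set S), inc (Set.subset_univ _) x = y}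
        one_mem' := ⟨∅, 1, map_one _⟩
        mul_mem' := by
          rintro _ _ ⟨F, x, rfl⟩ ⟨F', x', rfl⟩
          refine ⟨F ∪ F', inc (T := (F : Set S)) (by exact_mod_cast Finset.subset_union_left) x *
            inc (T := (F' : Set S)) (by exact_mod_cast Finset.subset_union_right) x', ?_⟩
          rw [map_mul, inc_inc, inc_inc]
        inv_mem' := by
          rintro _ ⟨F, x, rfl⟩
          exact ⟨F, x⁻¹, map_inv _ _⟩ }
    have hH : H = ⊤ := ak_gen fun s _ => by
      refine ⟨{s}, gen M _ s, ?_⟩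
      rw [inc_gen _ (by simp)]
    have hy : y ∈ H := by rw [hH]; trivial
    exact hy
  · intro F x hx
    obtain ⟨w, rfl⟩ := PresentedGroup.mk_surjective (rels M (F : Set S)) x
    -- kill the other generators
    obtain ⟨κ, hκ⟩ : ∃ κ : FreeGroup S →* FreeGroup S,
        κ = FreeGroup.lift (fun s => if s ∈ F then FreeGroup.of s else 1) := ⟨_, rfl⟩
    have hκm : ∀ (T : Set S) (hT : (F : Set S) ⊆ T), PresentedGroup.mk (rels M T) (κ w) =
        inc hT (PresentedGroup.mk (rels M (F : Set S)) w) := by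
      intro T hT
      have : (PresentedGroup.mk (rels M T)).comp κ =
          (inc hT).comp (PresentedGroup.mk (rels M (F : Set S))) := by
        refine FreeGroup.ext_hom _ _ fun s => ?_
        rw [MonoidHom.comp_apply, MonoidHom.comp_apply, hκ, FreeGroup.lift_apply_of]
        by_cases hs : s ∈ F
        · rw [if_pos hs]
          exact (inc_gen hT (show s ∈ (F : Set S) from hs)).symm
        · rw [if_neg hs, map_one]
          have h1 : PresentedGroup.mk (rels M (F : Set S)) (FreeGroup.of s) = 1 :=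
            gen_not (show s ∉ (F : Set S) from hs)
          rw [h1, map_one]
      exact DFunLike.congr_fun this w
    have hx' : inc (Set.subset_univ _) (PresentedGroup.mk (rels M (F : Set S)) w) = 1 := hx
    rw [← hκm] at hx'
    let N : Subgroup (FreeGroup S) :=
      { carrier := {w | ∃ F0 : Finset S, ∀ F1 : Finset S, F0 ⊆ F1 →
          PresentedGroup.mk (rels M (F1 : Set S)) w = 1}
        one_mem' := ⟨∅, fun _ _ => map_one _⟩
        mul_mem' := by
          rintro u v ⟨F0, h0⟩ ⟨F0', h0'⟩
          refine ⟨F0 ∪ F0', fun F1 h1 => ?_⟩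
          rw [map_mul, h0 F1 (Finset.subset_union_left.trans h1),
            h0' F1 (Finset.subset_union_right.trans h1), one_mul]
        inv_mem' := by
          rintro u ⟨F0, h0⟩
          refine ⟨F0, fun F1 h1 => ?_⟩
          rw [map_inv, h0 F1 h1, inv_one] }
    have hN : N.Normal := ⟨by
      rintro u ⟨F0, h0⟩ g
      refine ⟨F0, fun F1 h1 => ?_⟩
      rw [map_mul, map_mul, h0 F1 h1, mul_one, ← map_mul, mul_inv_cancel, map_one]⟩
    have hrel : Subgroup.normalClosure (rels M (Set.univ : Set S)) ≤ N := by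
      refine Subgroup.normalClosure_le_normal ?_
      rintro r (⟨s, _, t, _, rfl⟩ | ⟨s, hs, rfl⟩)
      · refine ⟨{s, t}, fun F1 h1 => ?_⟩
        have hs : s ∈ (F1 : Set S) := h1 (by simp)
        have ht : t ∈ (F1 : Set S) := h1 (by simp)
        exact PresentedGroup.one_of_mem (Or.inl ⟨s, hs, t, ht, rfl⟩)
      · exact absurd (Set.mem_univ s) hs
    have hmem : κ w ∈ N := hrel ((QuotientGroup.eq_one_iff _).1 hx')
    obtain ⟨F0, h0⟩ := hmem
    refine ⟨F ∪ F0, Finset.subset_union_left, ?_⟩
    have h1 := h0 (F ∪ F0) Finset.subset_union_right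
    rw [hκm ((F ∪ F0 : Finset S) : Set S) (by exact_mod_cast Finset.subset_union_left)] at h1
    exact h1

/-- every nonempty finite set `T` contains a `v` such that the `t ∈ T` with a finite label `M v t` are
at most two or have pairwise infinite labels -/
def Thin {S : Type} (M : S → S → ℕ) : Prop :=
  ∀ T : Set S, T.Finite → T.Nonempty → ∃ v ∈ T,
    (∃ a b, ∀ t ∈ T, t ≠ v → M v t ≠ 0 → t = a ∨ t = b) ∨
    (∀ s ∈ T, ∀ t ∈ T, s ≠ v → t ≠ v → s ≠ t → M v s ≠ 0 → M v t ≠ 0 → M s t = 0)

/-- **thin Artin groups** -/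
theorem thin_artin (hC : ClosedE C) (hGL : ∀ n : ℕ, C (GL (Fin n) ℚ)) {S : Type} {M : S → S → ℕ}
    (hM : ∀ s t, M s t = M t s) (hd : ∀ s, M s s = 1) (h1 : ∀ s t, s ≠ t → M s t ≠ 1) (hT : Thin M)
    (h3 : ∀ a b c : S, a ≠ b → b ≠ c → a ≠ c → M a b ≠ 0 → M b c ≠ 0 → M a c ≠ 0 →
      C (Artin (fun i j : Fin 3 => M (![a, b, c] i) (![a, b, c] j)))) : C (Artin M) := by
  classical
  have hu := (c_iff hC (id : S → S) Function.injective_id M Set.univ Set.range_id).2
  refine hu (ak_colim hC M fun F => ?_)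
  have hF := (c_iff hC (Subtype.val : F → S) Subtype.val_injective M (F : Set S)
    (Subtype.range_coe)).1
  apply hF
  have hFu := (c_iff hC (id : F → F) Function.injective_id (fun i j : F => M i j) Set.univ
    Set.range_id).2
  apply hFu
  refine thin (S := F) (M := fun i j : F => M i j) hC hGL (fun s t => hM s t) (fun s => hd s)
    (fun s t h => h1 s t fun h' => h (Subtype.ext h'))
    (fun T hTn => ?_) (fun a b c hab hbc hac m1 m2 m3 => ?_) Set.univ
  · obtain ⟨v, hv, hv'⟩ := hT (Subtype.val '' T) (Set.toFinite _) (hTn.image _)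
    obtain ⟨v, hvT, rfl⟩ := hv
    refine ⟨v, hvT, ?_⟩
    rcases hv' with ⟨a, b, hab⟩ | hfr
    · left
      -- representatives
      by_cases ha : ∃ a' : F, a'.1 = a <;> by_cases hb : ∃ b' : F, b'.1 = b
      · obtain ⟨a', rfl⟩ := ha
        obtain ⟨b', rfl⟩ := hb
        refine ⟨a', b', fun t ht htv hm => ?_⟩
        rcases hab t ⟨t, ht, rfl⟩ (fun h => htv (Subtype.ext h)) hm with h | h
        · exact Or.inl (Subtype.ext h)
        · exact Or.inr (Subtype.ext h)
      · obtain ⟨a', rfl⟩ := ha
        refine ⟨a', a', fun t ht htv hm => ?_⟩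
        rcases hab t ⟨t, ht, rfl⟩ (fun h => htv (Subtype.ext h)) hm with h | h
        · exact Or.inl (Subtype.ext h)
        · exact absurd ⟨t, h⟩ hb
      · obtain ⟨b', rfl⟩ := hb
        refine ⟨b', b', fun t ht htv hm => ?_⟩
        rcases hab t ⟨t, ht, rfl⟩ (fun h => htv (Subtype.ext h)) hm with h | h
        · exact absurd ⟨t, h⟩ ha
        · exact Or.inl (Subtype.ext h)
      · refine ⟨v, v, fun t ht htv hm => ?_⟩
        rcases hab t ⟨t, ht, rfl⟩ (fun h => htv (Subtype.ext h)) hm with h | h
        · exact absurd ⟨t, h⟩ ha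
        · exact absurd ⟨t, h⟩ hb
    · right
      intro s hs t ht hsv htv hst m1 m2
      exact hfr s ⟨s, hs, rfl⟩ t ⟨t, ht, rfl⟩ (fun h => hsv (Subtype.ext h)) (fun h => htv (Subtype.ext h))
        (fun h => hst (Subtype.ext h)) m1 m2
  · have he : Function.Injective ![a, b, c] := by
      intro i j hij
      fin_cases i <;> fin_cases j
      · rfl
      · exact absurd hij hab
      · exact absurd hij hac
      · exact absurd hij hab.symm
      · rfl
      · exact absurd hij hbc
      · exact absurd hij hac.symm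
      · exact absurd hij hbc.symm
      · rfl
    have hr : Set.range ![a, b, c] = {a, b, c} := by
      ext x
      constructor
      · rintro ⟨i, rfl⟩
        fin_cases i
        · exact Or.inl rfl
        · exact Or.inr (Or.inl rfl)
        · exact Or.inr (Or.inr rfl)
      · rintro (rfl | rfl | rfl)
        · exact ⟨0, rfl⟩
        · exact ⟨1, rfl⟩
        · exact ⟨2, rfl⟩
    refine (c_iff hC ![a, b, c] he (fun i j : F => M i j) {a, b, c} hr).1 ?_
    have h4 := h3 a b c (fun h => hab (Subtype.ext h)) (fun h => hbc (Subtype.ext h))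
      (fun h => hac (Subtype.ext h)) m1 m2 m3
    have h5 : (fun i j : Fin 3 => M (![a.1, b.1, c.1] i) (![a.1, b.1, c.1] j)) =
        fun i j : Fin 3 => M ((![a, b, c] i : F) : S) ((![a, b, c] j : F) : S) := by
      funext i j
      fin_cases i <;> fin_cases j <;> rfl
    rw [h5] at h4
    exact h4

/-- triangles with two labels `2` -/
theorem triangle_mem (hC : ClosedE C) (hGL : ∀ n : ℕ, C (GL (Fin n) ℚ)) {M : Fin 3 → Fin 3 → ℕ}
    (hM : ∀ s t, M s t = M t s) (hd : ∀ s, M s s = 1) (h1 : ∀ s t, s ≠ t → M s t ≠ 1)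
    {a : Fin 3} (h2 : ∀ t, t ≠ a → M a t = 2) : C (Artin M) := by
  have hu := (c_iff hC (id : Fin 3 → Fin 3) Function.injective_id M Set.univ Set.range_id).2
  apply hu
  have e1 : (Set.univ : Set (Fin 3)) = {a} ∪ {a}ᶜ := (Set.union_compl_self _).symm
  rw [e1]
  refine join_mem hC hM hd (fun s hs t ht => ?_) ?_ ?_
  · rw [Set.mem_singleton_iff.1 hs]
    exact h2 t ht
  · exact self_mem hC hGL hM h1 (Or.inl ⟨a, a, (Set.pair_eq_singleton a).symm⟩)
  · refine self_mem hC hGL hM h1 (Or.inl ?_)
    fin_cases a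
    · exact ⟨1, 2, by ext x; fin_cases x <;> simp⟩
    · exact ⟨0, 2, by ext x; fin_cases x <;> simp⟩
    · exact ⟨0, 1, by ext x; fin_cases x <;> simp⟩

end Pool.Agent.U68.AR
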