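import Mathlib

/-!
# Alternating products
-/

set_option autoImplicit false

namespace Pool.Agent.U68.AR

/-- the alternating product `x y x ...` with `n` factors -/
def alt {G : Type*} [Monoid G] (x y : G) : ℕ → G
  | 0 => 1
  | n + 1 => x * alt y x n

section

variable {G H : Type*} [Monoid G] [Monoid H]

theorem alt_zero (x y : G) : alt x y 0 = 1 := rfl

theorem alt_succ (x y : G) (n : ℕ) : alt x y (n + 1) = x * alt y x n := rfl

theorem map_alt (f : G →* H) (x y : G) (n : ℕ) : f (alt x y n) = alt (f x) (f y) n := by
  induction n generalizing x y with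
  | zero => exact map_one f
  | succ n ih => rw [alt_succ, alt_succ, map_mul, ih]

theorem alt_self (x : G) (n : ℕ) : alt x x n = x ^ n := by
  induction n with
  | zero => rw [alt_zero, pow_zero]
  | succ n ih => rw [alt_succ, ih, pow_succ']

theorem alt_two_mul (x y : G) (n : ℕ) : alt x y (2 * n) = (x * y) ^ n := by
  induction n with
  | zero => rw [mul_zero, alt_zero, pow_zero]
  | succ n ih =>
    rw [show 2 * (n + 1) = 2 * n + 1 + 1 by ring, alt_succ, alt_succ, ih, pow_succ', mul_assoc]

theorem alt_one_left (x : G) (n : ℕ) : alt x 1 (2 * n) = x ^ n := by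
  rw [alt_two_mul, mul_one]

theorem alt_one_right (x : G) (n : ℕ) : alt 1 x (2 * n) = x ^ n := by
  rw [alt_two_mul, one_mul]

end

section grp

variable {G : Type*} [Group G]

/-- powers of `a J` -/
theorem pow_aJ {a b J : G} (hb : J * a * J⁻¹ = b) (ha : J * b * J⁻¹ = a) (n : ℕ) :
    (a * J) ^ n = alt a b n * J ^ n := by
  have h1 : ∀ n, J * alt a b n * J⁻¹ = alt b a n := by
    intro n
    have := map_alt (MulAut.conj J).toMonoidHom a b n
    show (MulAut.conj J).toMonoidHom (alt a b n) = _
    rw [this]
    show alt (J * a * J⁻¹) (J * b * J⁻¹) n = _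
    rw [hb, ha]
  induction n with
  | zero => rw [pow_zero, alt_zero, pow_zero, one_mul]
  | succ n ih =>
    rw [pow_succ', ih, alt_succ, ← h1 n]
    group

theorem alt_eq_iff {a b J : G} (hb : J * a * J⁻¹ = b) (ha : J * b * J⁻¹ = a) (n : ℕ) :
    alt a b n = alt b a n ↔ J * (a * J) ^ n = (a * J) ^ n * J := by
  have h1 : J * alt a b n * J⁻¹ = alt b a n := by
    have := map_alt (MulAut.conj J).toMonoidHom a b n
    show (MulAut.conj J).toMonoidHom (alt a b n) = _
    rw [this]
    show alt (J * a * J⁻¹) (J * b * J⁻¹) n = _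
    rw [hb, ha]
  rw [pow_aJ hb ha]
  constructor
  · intro h
    have h2 : J * alt a b n = alt a b n * J := by
      rw [← h] at h1
      calc J * alt a b n = J * alt a b n * J⁻¹ * J := by group
        _ = alt a b n * J := by rw [h1]
    rw [← mul_assoc, h2, mul_assoc, mul_assoc, (Commute.refl J).pow_right n |>.eq]
  · intro h
    have h2 : J * alt a b n = alt a b n * J := by
      have h3 : J * alt a b n * J ^ n = alt a b n * J * J ^ n := by
        rw [mul_assoc, h, mul_assoc, mul_assoc, ((Commute.refl J).pow_right n).eq]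
      exact mul_right_cancel h3
    rw [← h1, h2]
    group

end grp

end Pool.Agent.U68.AR
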