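import Pool.Agent.U68.AR.Rep

/-!
# Artin groups with some generators killed, and a linear representation
-/

set_option autoImplicit false

namespace Pool.Agent.U68.AR

section ak

variable {S : Type}

/-- the relations -/
def rels (M : S → S → ℕ) (T : Set S) : Set (FreeGroup S) :=
  {r | ∃ s ∈ T, ∃ t ∈ T, r = alt (FreeGroup.of s) (FreeGroup.of t) (M s t) *
    (alt (FreeGroup.of t) (FreeGroup.of s) (M s t))⁻¹} ∪ {r | ∃ s, s ∉ T ∧ r = FreeGroup.of s}

/-- the Artin group on `T`, presented with generators `S`, where those outside of `T` are killed -/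
abbrev AK (M : S → S → ℕ) (T : Set S) : Type := PresentedGroup (rels M T)

/-- the generators -/
def gen (M : S → S → ℕ) (T : Set S) (s : S) : AK M T := PresentedGroup.of s

variable {M : S → S → ℕ} {T T' : Set S}

theorem gen_rel {s t : S} (hs : s ∈ T) (ht : t ∈ T) :
    alt (gen M T s) (gen M T t) (M s t) = alt (gen M T t) (gen M T s) (M s t) := by
  have h1 : PresentedGroup.mk (rels M T) (alt (FreeGroup.of s) (FreeGroup.of t) (M s t) *
      (alt (FreeGroup.of t) (FreeGroup.of s) (M s t))⁻¹) = 1 :=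
    PresentedGroup.one_of_mem (Or.inl ⟨s, hs, t, ht, rfl⟩)
  rw [map_mul, map_inv, mul_inv_eq_one, map_alt, map_alt] at h1
  exact h1

theorem gen_not {s : S} (hs : s ∉ T) : gen M T s = 1 :=
  PresentedGroup.one_of_mem (Or.inr ⟨s, hs, rfl⟩)

theorem exists_lift {G : Type} [Group G] (f : S → G)
    (h1 : ∀ s ∈ T, ∀ t ∈ T, alt (f s) (f t) (M s t) = alt (f t) (f s) (M s t))
    (h2 : ∀ s, s ∉ T → f s = 1) : ∃ F : AK M T →* G, ∀ s, F (gen M T s) = f s := by
  refine ⟨PresentedGroup.toGroup (f := f) ?_, fun s => PresentedGroup.toGroup.of _⟩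
  rintro r (⟨s, hs, t, ht, rfl⟩ | ⟨s, hs, rfl⟩)
  · rw [map_mul, map_inv, map_alt, map_alt, FreeGroup.lift_apply_of, FreeGroup.lift_apply_of]
    exact mul_inv_eq_one.2 (h1 s hs t ht)
  · rw [FreeGroup.lift_apply_of]
    exact h2 s hs

theorem ak_ext {G : Type} [Group G] {f g : AK M T →* G}
    (h : ∀ s ∈ T, f (gen M T s) = g (gen M T s)) : f = g :=
  PresentedGroup.ext fun s => by
    by_cases hs : s ∈ T
    · exact h s hs
    · have h1 : (PresentedGroup.of s : AK M T) = 1 := gen_not hs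
      rw [h1, map_one, map_one]

theorem ak_gen {H : Subgroup (AK M T)} (h : ∀ s ∈ T, gen M T s ∈ H) : H = ⊤ := by
  rw [eq_top_iff, ← PresentedGroup.closure_range_of, Subgroup.closure_le]
  rintro _ ⟨s, rfl⟩
  by_cases hs : s ∈ T
  · exact h s hs
  · have h1 : (PresentedGroup.of s : AK M T) = 1 := gen_not hs
    rw [h1]
    exact H.one_mem

theorem exists_inc (h : T ⊆ T') : ∃ F : AK M T →* AK M T', ∀ s ∈ T, F (gen M T s) = gen M T' s := by
  classical
  obtain ⟨F, hF⟩ := exists_lift (M := M) (T := T) (fun s => if s ∈ T then gen M T' s else 1)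
    (fun s hs t ht => by
      rw [if_pos hs, if_pos ht]
      exact gen_rel (h hs) (h ht))
    (fun s hs => by rw [if_neg hs])
  exact ⟨F, fun s hs => by rw [hF, if_pos hs]⟩

/-- the inclusion homomorphism -/
noncomputable def inc (h : T ⊆ T') : AK M T →* AK M T' := (exists_inc h).choose

theorem inc_gen (h : T ⊆ T') {s : S} (hs : s ∈ T) : inc h (gen M T s) = gen M T' s :=
  (exists_inc h).choose_spec s hs

theorem inc_inc {T'' : Set S} (h : T ⊆ T') (h' : T' ⊆ T'') (w : AK M T) :
    inc h' (inc h w) = inc (h.trans h') w := by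
  have : (inc h').comp (inc h) = (inc (h.trans h') : AK M T →* AK M T'') := by
    refine ak_ext fun s hs => ?_
    rw [MonoidHom.comp_apply, inc_gen h hs, inc_gen h' (h hs), inc_gen _ hs]
  exact DFunLike.congr_fun this w

/-- retraction to `T'` when the boundary is even -/
theorem exists_ret (h : T' ⊆ T) (hev : ∀ s ∈ T', ∀ t ∈ T, t ∉ T' → Even (M s t))
    (hev' : ∀ s ∈ T', ∀ t ∈ T, t ∉ T' → Even (M t s)) :
    ∃ F : AK M T →* AK M T', (∀ s ∈ T', F (gen M T s) = gen M T' s) ∧
      ∀ s, s ∉ T' → F (gen M T s) = 1 := by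
  classical
  obtain ⟨F, hF⟩ := exists_lift (M := M) (T := T) (fun s => if s ∈ T' then gen M T' s else 1)
    (fun s hs t ht => by
      by_cases h1 : s ∈ T' <;> by_cases h2 : t ∈ T'
      · rw [if_pos h1, if_pos h2]
        exact gen_rel h1 h2
      · rw [if_pos h1, if_neg h2]
        obtain ⟨k, hk⟩ := hev s h1 t ht h2
        rw [hk, ← two_mul, alt_one_left, alt_one_right]
      · rw [if_neg h1, if_pos h2]
        obtain ⟨k, hk⟩ := hev' t h2 s hs h1
        rw [hk, ← two_mul, alt_one_left, alt_one_right]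
      · rw [if_neg h1, if_neg h2])
    (fun s hs => by rw [if_neg fun h1 => hs (h h1)])
  exact ⟨F, fun s hs => by rw [hF, if_pos hs], fun s hs => by rw [hF, if_neg hs]⟩

/-- the subgroup generated by the generators in `T'` -/
def BK (M : S → S → ℕ) (T T' : Set S) : Subgroup (AK M T) := Subgroup.closure (gen M T '' T')

theorem range_inc (h : T ⊆ T') : (inc h : AK M T →* AK M T').range = BK M T' T := by
  apply le_antisymm
  · have : (BK M T' T).comap (inc h : AK M T →* AK M T') = ⊤ := ak_gen fun s hs => by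
      rw [Subgroup.mem_comap, inc_gen h hs]
      exact Subgroup.subset_closure ⟨s, hs, rfl⟩
    rintro _ ⟨w, rfl⟩
    have hw : w ∈ (BK M T' T).comap (inc h : AK M T →* AK M T') := by rw [this]; trivial
    exact hw
  · rw [BK, Subgroup.closure_le]
    rintro _ ⟨s, hs, rfl⟩
    exact ⟨_, inc_gen h hs⟩

end ak

/-! ### the representation -/

section rep

/-- corners -/
theorem exists_corner {S : Type} [Fintype S] [DecidableEq S] (c : S → S → ℝ) (hc : ∀ s, c s s = 1)
    {s t : S} (hst : s ≠ t) (hdet : 1 - c s t * c t s ≠ 0) :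
    ∃ Ψ : GL (Fin 2) ℝ →* GL S ℝ, Ψ (mA (c s t)) = Tu c hc s ∧ Ψ (mB (c t s)) = Tu c hc t := by
  obtain ⟨x, hx⟩ : ∃ x, x = c s t := ⟨_, rfl⟩
  obtain ⟨y, hy⟩ : ∃ y, y = c t s := ⟨_, rfl⟩
  rw [← hx, ← hy] at hdet ⊢
  obtain ⟨P, hP⟩ : ∃ P : Matrix S (Fin 2) ℝ, P = Pm ℝ ![s, t] := ⟨_, rfl⟩
  obtain ⟨Q, hQ⟩ : ∃ Q : Matrix (Fin 2) S ℝ, Q = Matrix.of fun i j => c (![s, t] i) j := ⟨_, rfl⟩
  obtain ⟨D, hD⟩ : ∃ D : Matrix (Fin 2) (Fin 2) ℝ, D = (1 / (1 - x * y)) • !![1, -x; -y, 1] := ⟨_, rfl⟩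
  have hQP : Q * P = !![1, x; y, 1] := by
    ext i j
    rw [Matrix.mul_apply, Finset.sum_eq_single (![s, t] j)]
    · rw [hQ, hP, Pm_apply, if_pos rfl, mul_one]
      fin_cases i <;> fin_cases j
      · exact hc s
      · exact hx.symm
      · exact hy.symm
      · exact hc t
    · intro b _ hb
      rw [hP, Pm_apply, if_neg hb, mul_zero]
    · intro h1
      exact absurd (Finset.mem_univ _) h1
  have hDC : D * !![1, x; y, 1] = 1 := by
    rw [hD, Matrix.smul_mul]
    ext i j
    fin_cases i <;> fin_cases j <;> simp [Matrix.mul_apply, Fin.sum_univ_two] <;> field_simp <;> ring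
  have hCD : !![1, x; y, 1] * D = 1 := by
    rw [hD, Matrix.mul_smul]
    ext i j
    fin_cases i <;> fin_cases j <;> simp [Matrix.mul_apply, Fin.sum_univ_two] <;> field_simp <;> ring
  have hDQP : (D * Q) * P = 1 := by rw [Matrix.mul_assoc, hQP, hDC]
  let Ψ0 : Matrix (Fin 2) (Fin 2) ℝ →* Matrix S S ℝ :=
    { toFun := fun Y => 1 + P * (Y - 1) * (D * Q)
      map_one' := by rw [sub_self, Matrix.mul_zero, Matrix.zero_mul, add_zero]
      map_mul' := fun Y Z => by
        have h1 : P * (Y - 1) * (D * Q) * (P * (Z - 1) * (D * Q)) =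
            P * ((Y - 1) * (Z - 1)) * (D * Q) := by
          calc P * (Y - 1) * (D * Q) * (P * (Z - 1) * (D * Q))
              = P * (Y - 1) * ((D * Q) * P) * (Z - 1) * (D * Q) := by
                simp only [Matrix.mul_assoc]
            _ = _ := by rw [hDQP, Matrix.mul_one]; simp only [Matrix.mul_assoc]
        rw [mul_add, add_mul, add_mul, one_mul, mul_one, one_mul, h1]
        have h2 : Y * Z - 1 = (Y - 1) + (Z - 1) + (Y - 1) * (Z - 1) := by noncomm_ring
        rw [h2, Matrix.mul_add, Matrix.mul_add, Matrix.add_mul, Matrix.add_mul]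
        abel }
  refine ⟨Units.map Ψ0, ?_, ?_⟩
  · apply Units.ext
    show 1 + P * ((mA x : Matrix (Fin 2) (Fin 2) ℝ) - 1) * (D * Q) = 1 + Em c s
    congr 1
    have h1 : (mA x : Matrix (Fin 2) (Fin 2) ℝ) - 1 = !![1, 0; 0, 0] * !![1, x; y, 1] := by
      rw [coe_mA]
      ext i j
      fin_cases i <;> fin_cases j <;> simp [Matrix.mul_apply, Fin.sum_univ_two]
      norm_num
    rw [h1, ← Matrix.mul_assoc, Matrix.mul_assoc P, Matrix.mul_assoc (!![1, 0; 0, 0] : Matrix (Fin 2) (Fin 2) ℝ), hCD,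
      Matrix.mul_one]
    ext i j
    rw [Matrix.mul_apply, Fin.sum_univ_two, Em_apply, Matrix.mul_apply, Matrix.mul_apply,
      Fin.sum_univ_two, Fin.sum_univ_two, hP, hQ, Pm_apply, Pm_apply]
    by_cases h : i = s <;> by_cases h' : i = t <;> simp [h, h']
  · apply Units.ext
    show 1 + P * ((mB y : Matrix (Fin 2) (Fin 2) ℝ) - 1) * (D * Q) = 1 + Em c t
    congr 1
    have h1 : (mB y : Matrix (Fin 2) (Fin 2) ℝ) - 1 = !![0, 0; 0, 1] * !![1, x; y, 1] := by
      rw [coe_mB]
      ext i j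
      fin_cases i <;> fin_cases j <;> simp [Matrix.mul_apply, Fin.sum_univ_two]
      norm_num
    rw [h1, ← Matrix.mul_assoc, Matrix.mul_assoc P, Matrix.mul_assoc (!![0, 0; 0, 1] : Matrix (Fin 2) (Fin 2) ℝ), hCD,
      Matrix.mul_one]
    ext i j
    rw [Matrix.mul_apply, Fin.sum_univ_two, Em_apply, Matrix.mul_apply, Matrix.mul_apply,
      Fin.sum_univ_two, Fin.sum_univ_two, hP, hQ, Pm_apply, Pm_apply]
    by_cases h : i = s <;> by_cases h' : i = t <;> simp [h, h']

theorem braid2 {m : ℕ} (hm : 3 ≤ m) {x y : ℝ} (h : x * y ≠ 0)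
    (hxy : x * y = -2 * (2 * Real.cos (Real.pi / m)) ^ 2) :
    alt (mA x) (mB y) m = alt (mB y) (mA x) m := by
  rw [alt_eq_iff (J_A x y h) (J_B x y h)]
  obtain ⟨k, hk0, hk⟩ := U_pow hm h hxy
  have h1 : (mA x * mJ x y h) ^ m = mU x y h ^ m := rfl
  rw [h1]
  apply Units.ext
  rw [Units.val_mul, Units.val_mul, hk, mul_smul_comm, smul_mul_assoc, mul_one, one_mul]

/-- the coefficients of the representation -/
noncomputable def cf {S : Type} [DecidableEq S] (o : S → ℕ) (M : S → S → ℕ) (s t : S) : ℝ :=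
  if s = t then 1 else if M s t = 2 then 0 else if M s t = 0 then 16 else
    if o s < o t then 2 * Real.cos (Real.pi / M s t) else -2 * (2 * Real.cos (Real.pi / M s t))

variable {S : Type} [Fintype S] [DecidableEq S] {o : S → ℕ} {M : S → S → ℕ}

omit [Fintype S] in
theorem cf_self (s : S) : cf o M s s = 1 := by rw [cf, if_pos rfl]

omit [Fintype S] in
theorem cf_mul (ho : Function.Injective o) (hM : ∀ s t, M s t = M t s) {s t : S} (hst : s ≠ t)
    (h2 : M s t ≠ 2) (h0 : M s t ≠ 0) :
    cf o M s t * cf o M t s = -2 * (2 * Real.cos (Real.pi / M s t)) ^ 2 := by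
  rw [cf, if_neg hst, if_neg h2, if_neg h0, cf, if_neg hst.symm, hM t s, if_neg h2, if_neg h0]
  rcases lt_trichotomy (o s) (o t) with h | h | h
  · rw [if_pos h, if_neg (by omega)]
    ring
  · exact absurd (ho h) hst
  · rw [if_neg (by omega), if_pos h]
    ring

theorem cos_pos {m : ℕ} (hm : 3 ≤ m) : 0 < Real.cos (Real.pi / m) := by
  have h0 : (0 : ℝ) < m := by positivity
  have h3 : (3 : ℝ) ≤ m := by exact_mod_cast hm
  apply Real.cos_pos_of_mem_Ioo
  constructor
  · have : 0 < Real.pi / m := div_pos Real.pi_pos h0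
    linarith [Real.pi_pos]
  · exact div_lt_div_of_pos_left Real.pi_pos (by norm_num) (by linarith)

theorem braid_rel (ho : Function.Injective o) (hM : ∀ s t, M s t = M t s)
    (h1 : ∀ s t, s ≠ t → M s t ≠ 1) (s t : S) :
    alt (Tu (cf o M) cf_self s) (Tu (cf o M) cf_self t) (M s t) =
      alt (Tu (cf o M) cf_self t) (Tu (cf o M) cf_self s) (M s t) := by
  rcases eq_or_ne s t with rfl | hst
  · rfl
  rcases Nat.lt_or_ge (M s t) 3 with h3 | h3
  · have h4 := h1 s t hst
    have h5 : M s t = 0 ∨ M s t = 2 := by omega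
    rcases h5 with h5 | h5
    · rw [h5]; rfl
    · rw [h5]
      show Tu (cf o M) cf_self s * (Tu (cf o M) cf_self t * 1) =
        Tu (cf o M) cf_self t * (Tu (cf o M) cf_self s * 1)
      rw [mul_one, mul_one]
      have hz : ∀ s t : S, s ≠ t → M s t = 2 → Em (cf o M) s * Em (cf o M) t = 0 := by
        intro s t hst h5
        ext i j
        rw [Matrix.mul_apply, Finset.sum_eq_single t]
        · rw [Em_apply, cf, if_neg hst, if_pos h5]
          simp
        · intro b _ hb
          rw [Em_apply _ t, if_neg hb, mul_zero]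
        · intro h1
          exact absurd (Finset.mem_univ _) h1
      apply Units.ext
      have e1 := hz s t hst h5
      have e2 := hz t s hst.symm (by rw [hM]; exact h5)
      rw [Units.val_mul, Units.val_mul, coe_Tu, coe_Tu]
      simp only [mul_add, add_mul, mul_one, one_mul, e1, e2, add_zero]
      abel
  · have h4 := cf_mul ho hM hst (by omega) (by omega)
    have hpos := cos_pos h3
    have hne : cf o M s t * cf o M t s ≠ 0 := by
      rw [h4]
      have : 0 < (2 * Real.cos (Real.pi / (M s t : ℕ))) ^ 2 := by positivity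
      linarith
    have hdet : 1 - cf o M s t * cf o M t s ≠ 0 := by
      rw [h4]
      have : 0 < (2 * Real.cos (Real.pi / (M s t : ℕ))) ^ 2 := by positivity
      linarith
    obtain ⟨Ψ, h5, h6⟩ := exists_corner (cf o M) cf_self hst hdet
    have h7 := congrArg Ψ (braid2 h3 hne h4)
    rw [map_alt, map_alt, h5, h6] at h7
    exact h7

end rep

end Pool.Agent.U68.AR
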