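import Pool.Agent.U68.AR.Mat

/-!
# The dihedral Artin groups are linear
-/

set_option autoImplicit false

namespace Pool.Agent.U68.AR

/-! ### semidirect products with the integers -/

section semi

variable {N H : Type} [Group N] [Group H]

theorem lift_semi (σ : MulAut N) (f : N →* H) (t : H) (h : ∀ n, f (σ n) = t * f n * t⁻¹) :
    ∃ F : N ⋊[zpowersHom (MulAut N) σ] Multiplicative ℤ →* H,
      (∀ n, F (SemidirectProduct.inl n) = f n) ∧
      F (SemidirectProduct.inr (Multiplicative.ofAdd 1)) = t := by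
  have h' : ∀ n, f (σ⁻¹ n) = t⁻¹ * f n * t := by
    intro n
    have h1 := h (σ⁻¹ n)
    have h2 : σ (σ⁻¹ n) = n := MulAut.apply_inv_self _ _ _
    rw [h2] at h1
    rw [h1]
    group
  have key : ∀ (k : ℤ) (n : N), f ((σ ^ k) n) = t ^ k * f n * (t ^ k)⁻¹ := by
    intro k
    induction k using Int.induction_on with
    | zero => intro n; simp
    | succ k ih =>
      intro n
      rw [zpow_add_one, MulAut.mul_apply, ih, h, zpow_add_one]
      group
    | pred k ih =>
      intro n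
      rw [zpow_sub_one, MulAut.mul_apply, ih, h', zpow_sub_one]
      group
  refine ⟨SemidirectProduct.lift f (zpowersHom H t) (fun g => ?_), fun n => ?_, ?_⟩
  · refine MonoidHom.ext fun n => ?_
    show f ((σ ^ g.toAdd) n) = t ^ g.toAdd * f n * (t ^ g.toAdd)⁻¹
    exact key _ _
  · rw [SemidirectProduct.lift_inl]
  · rw [SemidirectProduct.lift_inr, zpowersHom_apply, toAdd_ofAdd, zpow_one]

end semi

/-! ### finite or infinite cyclic groups -/

/-- the cyclic group of order `n` (infinite for `n = 0`) -/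
abbrev Cy (n : ℕ) : Type := Multiplicative ℤ ⧸ Subgroup.zpowers (Multiplicative.ofAdd (n : ℤ))

/-- homomorphisms from a cyclic group -/
def cyLift {G : Type} [Group G] (n : ℕ) (g : G) (h : g ^ n = 1) : Cy n →* G :=
  QuotientGroup.lift _ (zpowersHom G g) (by
    intro x hx
    obtain ⟨k, rfl⟩ := Subgroup.mem_zpowers_iff.1 hx
    rw [MonoidHom.mem_ker, map_zpow, zpowersHom_apply, toAdd_ofAdd, zpow_natCast, h, one_zpow])

theorem cyLift_mk {G : Type} [Group G] (n : ℕ) (g : G) (h : g ^ n = 1) (k : ℤ) :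
    cyLift n g h (QuotientGroup.mk (Multiplicative.ofAdd k)) = g ^ k := by
  show zpowersHom G g (Multiplicative.ofAdd k) = g ^ k
  rw [zpowersHom_apply, toAdd_ofAdd]

/-- nontrivial elements are represented by small numbers -/
theorem cy_rep {n : ℕ} (hn : 0 < n) {x : Cy n} (hx : x ≠ 1) :
    ∃ i : ℕ, 1 ≤ i ∧ i < n ∧ x = QuotientGroup.mk (Multiplicative.ofAdd (i : ℤ)) := by
  obtain ⟨k, rfl⟩ := QuotientGroup.mk_surjective x
  have hn0 : (n : ℤ) ≠ 0 := by exact_mod_cast hn.ne'
  have h0 := Int.emod_nonneg k.toAdd hn0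
  have h1 := Int.emod_lt_of_pos k.toAdd (by exact_mod_cast hn : (0 : ℤ) < n)
  have h2 : (QuotientGroup.mk k : Cy n) =
      QuotientGroup.mk (Multiplicative.ofAdd (k.toAdd % n)) := by
    rw [QuotientGroup.eq]
    refine Subgroup.mem_zpowers_iff.2 ⟨-(k.toAdd / n), ?_⟩
    rw [← ofAdd_zsmul]
    apply Multiplicative.toAdd.injective
    rw [toAdd_ofAdd, toAdd_mul, toAdd_inv, toAdd_ofAdd, smul_eq_mul, Int.emod_def]
    ring_nf
  obtain ⟨i, hi⟩ := Int.eq_ofNat_of_zero_le h0
  have h3 : i ≠ 0 := by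
    rintro rfl
    apply hx
    rw [h2, hi]
    rfl
  refine ⟨i, by omega, ?_, by rw [h2, hi]⟩
  rw [hi] at h1
  exact_mod_cast h1

theorem three_le_cy {n : ℕ} (hn : 3 ≤ n) : (3 : Cardinal) ≤ Cardinal.mk (Cy n) := by
  have h1 : Function.Injective (fun i : Fin 3 =>
      (QuotientGroup.mk (Multiplicative.ofAdd ((i : ℕ) : ℤ)) : Cy n)) := by
    intro i j hij
    have h2 := QuotientGroup.eq.1 hij
    obtain ⟨k, hk⟩ := Subgroup.mem_zpowers_iff.1 h2
    rw [← ofAdd_zsmul, ← ofAdd_neg, ← ofAdd_add] at hk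
    have h3 : k * (n : ℤ) = -((i : ℕ) : ℤ) + ((j : ℕ) : ℤ) := Multiplicative.ofAdd.injective hk
    have hi := i.2
    have hj := j.2
    have h4 : k = 0 := by
      by_contra hk0
      have hn' : (3 : ℤ) ≤ n := by exact_mod_cast hn
      rcases lt_or_gt_of_ne hk0 with h5 | h5
      · have : k * (n : ℤ) ≤ -3 := by nlinarith
        omega
      · have : 3 ≤ k * (n : ℤ) := by nlinarith
        omega
    rw [h4, zero_mul] at h3
    exact Fin.ext (by omega)
  have h2 := Cardinal.mk_le_of_injective h1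
  rw [Cardinal.mk_fin] at h2
  exact_mod_cast h2

/-! ### the dihedral Artin groups -/

section dih

variable {m : ℕ}

/-- the relation of the dihedral Artin group -/
def rel2 (m : ℕ) : Set (FreeGroup Bool) :=
  {alt (FreeGroup.of true) (FreeGroup.of false) m * (alt (FreeGroup.of false) (FreeGroup.of true) m)⁻¹}

/-- the dihedral Artin group -/
abbrev A2 (m : ℕ) : Type := PresentedGroup (rel2 m)

/-- the first generator -/
abbrev ga : A2 m := PresentedGroup.of true

/-- the second generator -/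
abbrev gb : A2 m := PresentedGroup.of false

theorem rel_ab : alt (ga : A2 m) gb m = alt gb ga m := by
  have h1 : (PresentedGroup.mk (rel2 m)) (alt (FreeGroup.of true) (FreeGroup.of false) m *
      (alt (FreeGroup.of false) (FreeGroup.of true) m)⁻¹) = 1 :=
    PresentedGroup.one_of_mem rfl
  rw [map_mul, map_inv, mul_inv_eq_one, map_alt, map_alt] at h1
  exact h1

theorem exists_lift2 {G : Type} [Group G] {x y : G} (h : alt x y m = alt y x m) :
    ∃ f : A2 m →* G, f ga = x ∧ f gb = y := by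
  refine ⟨PresentedGroup.toGroup (f := fun i : Bool => cond i x y) ?_, ?_, ?_⟩
  · rintro r rfl
    rw [map_mul, map_inv, map_alt, map_alt, FreeGroup.lift_apply_of, FreeGroup.lift_apply_of]
    exact mul_inv_eq_one.2 h
  · exact PresentedGroup.toGroup.of _
  · exact PresentedGroup.toGroup.of _

theorem ext2 {G : Type} [Group G] {f g : A2 m →* G} (ha : f ga = g ga) (hb : f gb = g gb) :
    f = g := PresentedGroup.ext fun i => by cases i; exacts [hb, ha]

theorem gen2 {H : Subgroup (A2 m)} (ha : ga ∈ H) (hb : gb ∈ H) : H = ⊤ := by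
  rw [eq_top_iff, ← PresentedGroup.closure_range_of, Subgroup.closure_le]
  rintro _ ⟨i, rfl⟩
  cases i
  exacts [hb, ha]

theorem exists_swap : ∃ σ : MulAut (A2 m), σ ga = gb ∧ σ gb = ga := by
  obtain ⟨f, hf1, hf2⟩ := exists_lift2 (m := m) (x := (gb : A2 m)) (y := ga) rel_ab.symm
  have h1 : f.comp f = MonoidHom.id _ := by
    refine ext2 ?_ ?_
    · rw [MonoidHom.comp_apply, hf1, hf2, MonoidHom.id_apply]
    · rw [MonoidHom.comp_apply, hf2, hf1, MonoidHom.id_apply]
  exact ⟨MonoidHom.toMulEquiv f f h1 h1, hf1, hf2⟩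

theorem dih_faithful (hm : 3 ≤ m) {x y : ℝ} (h : x * y ≠ 0)
    (hxy : x * y = -2 * (2 * Real.cos (Real.pi / m)) ^ 2) (f : A2 m →* GL (Fin 2) ℝ)
    (hfa : f ga = mA x) (hfb : f gb = mB y) : Function.Injective f := by
  classical
  obtain ⟨σ, hσa, hσb⟩ := exists_swap (m := m)
  have hfσ : ∀ w, f (σ w) = mJ x y h * f w * (mJ x y h)⁻¹ := by
    intro w
    have h1 : f.comp σ.toMonoidHom = (MulAut.conj (mJ x y h)).toMonoidHom.comp f := by
      refine ext2 ?_ ?_
      · show f (σ ga) = mJ x y h * f ga * (mJ x y h)⁻¹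
        rw [hσa, hfa, hfb, J_A]
      · show f (σ gb) = mJ x y h * f gb * (mJ x y h)⁻¹
        rw [hσb, hfa, hfb, J_B]
    exact DFunLike.congr_fun h1 w
  -- notation
  let E : Type := A2 m ⋊[zpowersHom (MulAut (A2 m)) σ] Multiplicative ℤ
  obtain ⟨τ, hτ⟩ : ∃ τ : E, τ = SemidirectProduct.inr (Multiplicative.ofAdd 1) := ⟨_, rfl⟩
  obtain ⟨α, hα⟩ : ∃ α : E, α = SemidirectProduct.inl ga := ⟨_, rfl⟩
  obtain ⟨β, hβ⟩ : ∃ β : E, β = SemidirectProduct.inl gb := ⟨_, rfl⟩
  have hτinl : ∀ w : A2 m, τ * SemidirectProduct.inl w * τ⁻¹ = (SemidirectProduct.inl (σ w) : E) := by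
    intro w
    rw [hτ, ← map_inv, ← SemidirectProduct.inl_aut, zpowersHom_apply, toAdd_ofAdd, zpow_one]
  have hJa : τ * α * τ⁻¹ = β := by rw [hα, hτinl, hσa, hβ]
  have hJb : τ * β * τ⁻¹ = α := by rw [hβ, hτinl, hσb, hα]
  have hgen : ∀ H : Subgroup E, τ ∈ H → α ∈ H → H = ⊤ := by
    intro H h1 h2
    have h3 : β ∈ H := by rw [← hJa]; exact mul_mem (mul_mem h1 h2) (inv_mem h1)
    have h4 : H.comap SemidirectProduct.inl = (⊤ : Subgroup (A2 m)) :=
      gen2 (by rw [Subgroup.mem_comap, ← hα]; exact h2) (by rw [Subgroup.mem_comap, ← hβ]; exact h3)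
    rw [eq_top_iff]
    rintro e -
    rw [← SemidirectProduct.inl_left_mul_inr_right e]
    refine mul_mem ?_ ?_
    · have : e.left ∈ H.comap SemidirectProduct.inl := by rw [h4]; trivial
      exact this
    · have h5 : (SemidirectProduct.inr e.right : E) = τ ^ (Multiplicative.toAdd e.right) := by
        rw [hτ, ← map_zpow, ← ofAdd_zsmul, smul_eq_mul, mul_one]
        rfl
      rw [h5]
      exact zpow_mem h1 _
  obtain ⟨U, hU⟩ : ∃ U : E, U = α * τ := ⟨_, rfl⟩
  have hrelE : alt α β m = alt β α m := by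
    have h1 := congrArg (SemidirectProduct.inl : A2 m →* E) (rel_ab (m := m))
    rw [map_alt, map_alt, ← hα, ← hβ] at h1
    exact h1
  obtain ⟨c, hc⟩ : ∃ c : E, c = U ^ m := ⟨_, rfl⟩
  obtain ⟨z, hz⟩ : ∃ z : E, z = τ ^ 2 := ⟨_, rfl⟩
  have hcτ : τ * c = c * τ := by rw [hc, hU]; exact (alt_eq_iff hJa hJb m).1 hrelE
  have hcc : ∀ e : E, e * c = c * e := by
    intro e
    have h1 : Subgroup.centralizer {c} = ⊤ := by
      refine hgen _ ?_ ?_
      · rw [Subgroup.mem_centralizer_singleton_iff]; exact hcτ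
      · rw [Subgroup.mem_centralizer_singleton_iff]
        have h2 : α = U * τ⁻¹ := by rw [hU]; exact (mul_inv_cancel_right α τ).symm
        have h3 : U * c = c * U := by rw [hc]; exact ((Commute.refl U).pow_right m).eq
        have h4 : τ⁻¹ * c = c * τ⁻¹ := by
          rw [inv_mul_eq_iff_eq_mul, ← mul_assoc, hcτ]; exact (mul_inv_cancel_right c τ).symm
        rw [h2, mul_assoc, h4, ← mul_assoc, h3, mul_assoc]
    have h2 : e ∈ Subgroup.centralizer {c} := by rw [h1]; trivial
    rwa [Subgroup.mem_centralizer_singleton_iff] at h2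
  have hzz : ∀ e : E, e * z = z * e := by
    intro e
    have h1 : Subgroup.centralizer {z} = ⊤ := by
      refine hgen _ ?_ ?_
      · rw [Subgroup.mem_centralizer_singleton_iff, hz]; exact ((Commute.refl τ).pow_right 2).eq
      · rw [Subgroup.mem_centralizer_singleton_iff, hz]
        have h2 : τ ^ 2 * α * (τ ^ 2)⁻¹ = α := by
          have : τ ^ 2 * α * (τ ^ 2)⁻¹ = τ * (τ * α * τ⁻¹) * τ⁻¹ := by
            rw [pow_two, mul_inv_rev]; simp only [mul_assoc]
          rw [this, hJa, hJb]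
        rw [mul_inv_eq_iff_eq_mul] at h2
        exact h2.symm
    have h2 : e ∈ Subgroup.centralizer {z} := by rw [h1]; trivial
    rwa [Subgroup.mem_centralizer_singleton_iff] at h2
  have hnc : (Subgroup.zpowers c).Normal := by
    refine ⟨fun x hx e => ?_⟩
    obtain ⟨k, rfl⟩ := Subgroup.mem_zpowers_iff.1 hx
    have h1 : e * c ^ k * e⁻¹ = c ^ k := by
      rw [mul_inv_eq_iff_eq_mul]
      exact (show Commute e c from hcc e).zpow_right k
    rw [h1]
    exact hx
  obtain ⟨Z, hZ⟩ : ∃ Z : Subgroup E, Z = Subgroup.zpowers c ⊔ Subgroup.zpowers z := ⟨_, rfl⟩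
  have hmemZ : ∀ {e : E}, e ∈ Z → ∃ j i : ℤ, e = c ^ j * z ^ i := by
    intro e he
    rw [hZ, ← SetLike.mem_coe, Subgroup.normal_mul, Set.mem_mul] at he
    obtain ⟨u, hu, v, hv, rfl⟩ := he
    obtain ⟨j, rfl⟩ := Subgroup.mem_zpowers_iff.1 hu
    obtain ⟨i, rfl⟩ := Subgroup.mem_zpowers_iff.1 hv
    exact ⟨j, i, rfl⟩
  have hZn : Z.Normal := by
    refine ⟨fun x hx e => ?_⟩
    obtain ⟨j, i, rfl⟩ := hmemZ hx
    have h1 : e * (c ^ j * z ^ i) * e⁻¹ = c ^ j * z ^ i := by
      rw [mul_inv_eq_iff_eq_mul]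
      exact ((show Commute e c from hcc e).zpow_right j).mul_right
        ((show Commute e z from hzz e).zpow_right i)
    rw [h1]
    exact hx
  -- the action on the projective line
  obtain ⟨j', hj'⟩ : ∃ j' : Equiv.Perm (OnePoint ℝ),
      j' = MulAction.toPermHom (GL (Fin 2) ℝ) (OnePoint ℝ) (mJ x y h) := ⟨_, rfl⟩
  obtain ⟨r, hr1, hr2⟩ := lift_semi σ ((MulAction.toPermHom (GL (Fin 2) ℝ) (OnePoint ℝ)).comp f) j'
    (by
      intro w
      rw [MonoidHom.comp_apply, MonoidHom.comp_apply, hfσ, map_mul, map_mul, map_inv, hj'])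
  rw [← hτ] at hr2
  have hrU : r U = MulAction.toPermHom (GL (Fin 2) ℝ) (OnePoint ℝ) (mU x y h) := by
    rw [hU, map_mul, hα, hr1, hr2, MonoidHom.comp_apply, hfa, hj', ← map_mul]
    rfl
  have hrc : r c = 1 := by
    rw [hc, map_pow, hrU, ← map_pow]
    obtain ⟨s, hs0, hs⟩ := U_pow hm h hxy
    refine Equiv.ext fun p => ?_
    exact scalar_act _ s hs0 hs p
  have hrz : r z = 1 := by
    rw [hz, map_pow, hr2, hj', ← map_pow]
    refine Equiv.ext fun p => ?_
    exact scalar_act _ (x * y) h (J_sq x y h) p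
  have hrZ : ∀ e ∈ Z, r e = 1 := by
    intro e he
    obtain ⟨j, i, rfl⟩ := hmemZ he
    rw [map_mul, map_zpow, map_zpow, hrc, hrz, one_zpow, one_zpow, one_mul]
  let rb : E ⧸ Z →* Equiv.Perm (OnePoint ℝ) := QuotientGroup.lift Z r hrZ
  have hτ2 : (QuotientGroup.mk' Z τ) ^ 2 = 1 := by
    rw [← map_pow, ← hz]
    exact (QuotientGroup.eq_one_iff z).2 (by rw [hZ]; exact Subgroup.mem_sup_right (Subgroup.mem_zpowers z))
  have hUm : (QuotientGroup.mk' Z U) ^ m = 1 := by
    rw [← map_pow, ← hc]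
    exact (QuotientGroup.eq_one_iff c).2 (by rw [hZ]; exact Subgroup.mem_sup_left (Subgroup.mem_zpowers c))
  let hh : ∀ i : Bool, Cy (cond i 2 m) →* E ⧸ Z := fun i => match i with
    | true => cyLift 2 (QuotientGroup.mk' Z τ) hτ2
    | false => cyLift m (QuotientGroup.mk' Z U) hUm
  obtain ⟨ι, hι⟩ : ∃ ι : Monoid.CoprodI (fun i : Bool => Cy (cond i 2 m)) →* E ⧸ Z,
      ι = Monoid.CoprodI.lift hh := ⟨_, rfl⟩
  have hsurj : Function.Surjective ι := by
    have h1 : ι.range.comap (QuotientGroup.mk' Z) = ⊤ := by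
      have h2 : τ ∈ ι.range.comap (QuotientGroup.mk' Z) := by
        refine ⟨Monoid.CoprodI.of (M := fun i : Bool => Cy (cond i 2 m)) (i := true)
          (QuotientGroup.mk (Multiplicative.ofAdd (1 : ℤ))), ?_⟩
        rw [hι, Monoid.CoprodI.lift_of]
        show cyLift 2 (QuotientGroup.mk' Z τ) hτ2 (QuotientGroup.mk (Multiplicative.ofAdd (1 : ℤ))) = _
        rw [cyLift_mk, zpow_one]
      have h3 : U ∈ ι.range.comap (QuotientGroup.mk' Z) := by
        refine ⟨Monoid.CoprodI.of (M := fun i : Bool => Cy (cond i 2 m)) (i := false)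
          (QuotientGroup.mk (Multiplicative.ofAdd (1 : ℤ))), ?_⟩
        rw [hι, Monoid.CoprodI.lift_of]
        show cyLift m (QuotientGroup.mk' Z U) hUm (QuotientGroup.mk (Multiplicative.ofAdd (1 : ℤ))) = _
        rw [cyLift_mk, zpow_one]
      refine hgen _ h2 ?_
      have h4 : α = U * τ⁻¹ := by rw [hU]; exact (mul_inv_cancel_right α τ).symm
      rw [h4]
      exact mul_mem h3 (inv_mem h2)
    intro q
    obtain ⟨e, rfl⟩ := QuotientGroup.mk'_surjective Z q
    have : e ∈ ι.range.comap (QuotientGroup.mk' Z) := by rw [h1]; trivial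
    exact this
  have hinj : Function.Injective (rb.comp ι) := by
    have h1 : rb.comp ι = Monoid.CoprodI.lift fun i => rb.comp (hh i) := by
      refine Monoid.CoprodI.ext_hom _ _ fun i => MonoidHom.ext fun u => ?_
      rw [MonoidHom.comp_apply, MonoidHom.comp_apply, hι, Monoid.CoprodI.lift_of,
        MonoidHom.comp_apply, Monoid.CoprodI.lift_of]
      rfl
    rw [h1]
    obtain ⟨l, hl⟩ : ∃ l : ℝ, l = 2 * Real.cos (Real.pi / m) := ⟨_, rfl⟩
    have hxyl : x * y = -2 * l ^ 2 := by rw [hl]; exact hxy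
    have hx : x ≠ 0 := left_ne_zero_of_mul h
    have hl0 : l ≠ 0 := by rintro rfl; apply h; rw [hxyl]; norm_num
    refine Monoid.CoprodI.lift_injective_of_ping_pong (α := OnePoint ℝ) _ (Or.inr ⟨false, ?_⟩)
      (fun i => cond i (PY x l) (PX x l)) ?_ ?_ ?_
    · -- the cyclic group of order `m` has at least three elements
      exact three_le_cy hm
    · intro i
      cases i
      · exact ⟨((x / l : ℝ) : OnePoint ℝ), x / l, rfl, by field_simp; norm_num⟩
      · exact ⟨((-(x / l) : ℝ) : OnePoint ℝ), -(x / l), rfl, by field_simp; norm_num⟩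
    · have hd : Disjoint (PX x l) (PY x l) := by
        rw [Set.disjoint_left]
        rintro p ⟨ζ, rfl, h1⟩ ⟨ζ', h2, h3⟩
        rw [OnePoint.coe_eq_coe] at h2
        rw [h2] at h1
        linarith
      intro i j hij
      cases i <;> cases j
      · exact absurd rfl hij
      · exact hd
      · exact hd.symm
      · exact absurd rfl hij
    · intro i j hij
      cases i <;> cases j
      · exact absurd rfl hij
      · -- the rotation
        intro u hu
        obtain ⟨k, hk1, hk2, rfl⟩ := cy_rep (n := m) (by omega) hu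
        rintro _ ⟨p, hp, rfl⟩
        show rb (cyLift m (QuotientGroup.mk' Z U) hUm (QuotientGroup.mk (Multiplicative.ofAdd (k : ℤ)))) • p ∈ PX x l
        rw [cyLift_mk, zpow_natCast, ← map_pow]
        have h2 : rb (QuotientGroup.mk' Z (U ^ k)) = r (U ^ k) := rfl
        rw [h2, map_pow, hrU, ← map_pow]
        rw [hl] at hp ⊢
        exact U_maps hm h hxy hp k hk1 hk2
      · intro u hu
        obtain ⟨k, hk1, hk2, rfl⟩ := cy_rep (n := 2) (by omega) hu
        have hk : k = 1 := by omega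
        subst hk
        rintro _ ⟨p, hp, rfl⟩
        show rb (cyLift 2 (QuotientGroup.mk' Z τ) hτ2 (QuotientGroup.mk (Multiplicative.ofAdd ((1 : ℕ) : ℤ)))) • p ∈ PY x l
        rw [cyLift_mk, zpow_natCast, pow_one]
        have h2 : rb (QuotientGroup.mk' Z τ) = r τ := rfl
        rw [h2, hr2, hj']
        exact J_maps h hxyl hp
      · exact absurd rfl hij
  -- conclusion
  rw [injective_iff_map_eq_one]
  intro w hw
  have h1 : r (SemidirectProduct.inl w) = 1 := by
    rw [hr1, MonoidHom.comp_apply, hw, map_one]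
  have h2 : (SemidirectProduct.inl w : E) ∈ Z := by
    obtain ⟨p, hp⟩ := hsurj (QuotientGroup.mk' Z (SemidirectProduct.inl w))
    have h3 : (rb.comp ι) p = 1 := by
      rw [MonoidHom.comp_apply, hp]
      exact h1
    have h4 : p = 1 := hinj (by rw [h3, map_one])
    rw [h4, map_one] at hp
    exact (QuotientGroup.eq_one_iff _).1 hp.symm
  obtain ⟨j, i, hji⟩ := hmemZ h2
  -- the determinant
  obtain ⟨D, hD1, hD2⟩ := lift_semi σ (Matrix.GeneralLinearGroup.det.comp f) (1 : ℝˣ) (by
    intro w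
    rw [MonoidHom.comp_apply, MonoidHom.comp_apply, hfσ, map_mul, map_mul, map_inv, one_mul, inv_one,
      mul_one, mul_comm (Matrix.GeneralLinearGroup.det (mJ x y h)), mul_assoc, mul_inv_cancel, mul_one])
  rw [← hτ] at hD2
  have hDa : ((D α : ℝˣ) : ℝ) = 2 := by
    rw [hα, hD1, MonoidHom.comp_apply, hfa]
    show Matrix.det !![2, x; 0, 1] = 2
    simp [Matrix.det_fin_two]
  have hDc : ((D c : ℝˣ) : ℝ) = 2 ^ m := by
    rw [hc, map_pow, hU, map_mul, hD2, mul_one, Units.val_pow_eq_pow_val, hDa]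
  have hDz : D z = 1 := by rw [hz, map_pow, hD2, one_pow]
  have h5 : ((D (SemidirectProduct.inl w) : ℝˣ) : ℝ) = 1 := by
    rw [hD1, MonoidHom.comp_apply, hw, map_one, Units.val_one]
  rw [hji, map_mul, map_zpow, map_zpow, hDz, one_zpow, mul_one, Units.val_zpow_eq_zpow_val, hDc,
    ← zpow_natCast, ← zpow_mul] at h5
  have h6 : (m : ℤ) * j = 0 := by
    by_contra hne
    have := (zpow_eq_one_iff_right₀ (by norm_num : (0 : ℝ) ≤ 2) (by norm_num : (2 : ℝ) ≠ 1)).1 h5
    exact hne this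
  have h7 : j = 0 := by
    rcases mul_eq_zero.1 h6 with h8 | h8
    · exfalso
      have : m = 0 := by exact_mod_cast h8
      omega
    · exact h8
  rw [h7, zpow_zero, one_mul] at hji
  have h8 : (SemidirectProduct.rightHom (SemidirectProduct.inl w : E)) = 1 := by
    rw [SemidirectProduct.rightHom_inl]
  rw [hji, map_zpow, hz, map_pow, hτ, SemidirectProduct.rightHom_inr, ← ofAdd_nsmul,
    ← ofAdd_zsmul] at h8
  have h9 : i = 0 := by
    have h10 : i • (2 • (1 : ℤ)) = 0 := h8
    rw [smul_eq_mul, nsmul_eq_mul] at h10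
    push_cast at h10
    omega
  rw [h9, zpow_zero] at hji
  exact SemidirectProduct.inl_injective (by rw [hji, map_one])

/-- **faithful representation of groups generated by two elements with a braid relation** -/
theorem dih_inj (hm : 3 ≤ m) {x y : ℝ} (h : x * y ≠ 0)
    (hxy : x * y = -2 * (2 * Real.cos (Real.pi / m)) ^ 2) {G : Type} [Group G] {a b : G}
    (hgen : Subgroup.closure {a, b} = ⊤) (hab : alt a b m = alt b a m) (F : G →* GL (Fin 2) ℝ)
    (hFa : F a = mA x) (hFb : F b = mB y) : Function.Injective F := by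
  obtain ⟨π, hπa, hπb⟩ := exists_lift2 hab
  have h1 := dih_faithful hm h hxy (F.comp π) (by rw [MonoidHom.comp_apply, hπa, hFa])
    (by rw [MonoidHom.comp_apply, hπb, hFb])
  have h2 : π.range = ⊤ := by
    rw [eq_top_iff, ← hgen, Subgroup.closure_le]
    rintro u (rfl | hu)
    · exact ⟨_, hπa⟩
    · rw [Set.mem_singleton_iff.1 hu]
      exact ⟨_, hπb⟩
  rw [injective_iff_map_eq_one]
  intro u hu
  obtain ⟨w, rfl⟩ := MonoidHom.range_eq_top.1 h2 u
  have h3 : (F.comp π) w = 1 := hu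
  rw [h1 (h3.trans (map_one _).symm), map_one]

end dih

end Pool.Agent.U68.AR
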