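import Pool.Agent.U68.AR.Art
import Pool.Agent.N509.TK.Loc
import Mathlib.NumberTheory.Niven

/-!
# The representation over a number field
-/

set_option autoImplicit false

namespace Pool.Agent.U68.AR

open Pool.Agent.Y110.FJ Pool.Agent.Y462.SS

variable {C : ∀ (G : Type) [Group G], Prop}

/-- restriction of scalars -/
theorem glK (hC : ClosedE C) (hGL : ∀ n : ℕ, C (GL (Fin n) ℚ)) (K : Type) [Field K] [Algebra ℚ K]
    [Module.Finite ℚ K] (S : Type) [Fintype S] [DecidableEq S] : C (GL S K) := by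
  classical
  let b := Module.finBasis ℚ (S → K)
  let f1 : Matrix S S K →* Module.End K (S → K) :=
    (Matrix.toLinAlgEquiv' : Matrix S S K ≃ₐ[K] ((S → K) →ₗ[K] (S → K)))
  let f2 : Module.End K (S → K) →* Module.End ℚ (S → K) :=
    { toFun := fun f => f.restrictScalars ℚ
      map_one' := rfl
      map_mul' := fun _ _ => rfl }
  let f3 : Module.End ℚ (S → K) →*
      Matrix (Fin (Module.finrank ℚ (S → K))) (Fin (Module.finrank ℚ (S → K))) ℚ :=
    (LinearMap.toMatrixAlgEquiv b : Module.End ℚ (S → K) ≃ₐ[ℚ]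
      Matrix (Fin (Module.finrank ℚ (S → K))) (Fin (Module.finrank ℚ (S → K))) ℚ)
  have h1 : Function.Injective f1 := (Matrix.toLinAlgEquiv').injective
  have h2 : Function.Injective f2 := fun f g h => LinearMap.restrictScalars_injective ℚ h
  have h3 : Function.Injective f3 := (LinearMap.toMatrixAlgEquiv b).injective
  refine hC.base.of_injective _ _ (Units.map ((f3.comp f2).comp f1)) ?_ (hGL _)
  exact Units.map_injective (h3.comp (h2.comp h1))

theorem isIntegral_cf {S : Type} [DecidableEq S] (o : S → ℕ) (M : S → S → ℕ) (s t : S) :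
    IsIntegral ℚ (cf o M s t) := by
  have hcos : IsIntegral ℚ (2 * Real.cos (Real.pi / M s t)) := by
    have h1 := Real.isIntegral_two_mul_cos_rat_mul_pi (1 / (M s t : ℚ))
    have h2 : (((1 / (M s t : ℚ) : ℚ)) : ℝ) * Real.pi = Real.pi / M s t := by
      push_cast
      ring
    rw [h2] at h1
    exact h1.tower_top
  rw [cf]
  split_ifs
  · exact isIntegral_one
  · exact isIntegral_zero
  · exact (isIntegral_algebraMap (R := ℚ) (A := ℝ) (x := 16)) |> fun h => by simpa using h
  · exact hcos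
  · have h3 : IsIntegral ℚ (-2 : ℝ) := by
      have := isIntegral_algebraMap (R := ℚ) (A := ℝ) (x := -2)
      simpa using this
    exact h3.mul hcos

/-- **the representation** -/
theorem exists_rep (hC : ClosedE C) (hGL : ∀ n : ℕ, C (GL (Fin n) ℚ)) {S : Type} [Fintype S]
    [DecidableEq S] {o : S → ℕ} {M : S → S → ℕ} (ho : Function.Injective o)
    (hM : ∀ s t, M s t = M t s) (h1 : ∀ s t, s ≠ t → M s t ≠ 1) (T : Set S) :
    ∃ (P : Type) (_ : Group P) (f : AK M T →* P) (R : AK M T →* GL S ℝ), C P ∧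
      (∀ s ∈ T, R (gen M T s) = Tu (cf o M) cf_self s) ∧ ∀ w, f w = 1 → R w = 1 := by
  classical
  obtain ⟨Z, hZ⟩ : ∃ Z : Set ℝ, Z = Set.range fun p : S × S => cf o M p.1 p.2 := ⟨_, rfl⟩
  have hZf : Finite Z := by rw [hZ]; infer_instance
  obtain ⟨K, hK⟩ : ∃ K : IntermediateField ℚ ℝ, K = IntermediateField.adjoin ℚ Z := ⟨_, rfl⟩
  have hfin : FiniteDimensional ℚ K := by
    rw [hK]
    refine IntermediateField.finiteDimensional_adjoin ?_
    intro x hx
    rw [hZ] at hx
    obtain ⟨p, rfl⟩ := hx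
    exact isIntegral_cf o M _ _
  have hmem : ∀ s t, cf o M s t ∈ K := by
    intro s t
    rw [hK]
    refine IntermediateField.subset_adjoin ℚ Z ?_
    rw [hZ]
    exact ⟨(s, t), rfl⟩
  obtain ⟨c, hcdef⟩ : ∃ c : S → S → K, ∀ s t, (c s t : ℝ) = cf o M s t :=
    ⟨fun s t => ⟨cf o M s t, hmem s t⟩, fun s t => rfl⟩
  have hc : ∀ s, c s s = 1 := by
    intro s
    apply Subtype.ext
    rw [hcdef, cf_self]
    rfl
  obtain ⟨φ, hφ⟩ : ∃ φ : GL S K →* GL S ℝ, φ = Units.map ((algebraMap K ℝ).mapMatrix : Matrix S S K →+* Matrix S S ℝ).toMonoidHom :=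
    ⟨_, rfl⟩
  have hφi : Function.Injective φ := by
    rw [hφ]
    refine Units.map_injective ?_
    intro A B hAB
    ext i j
    have h2 : (algebraMap K ℝ) (A i j) = (algebraMap K ℝ) (B i j) :=
      congrFun (congrFun hAB i) j
    exact congrArg _ ((algebraMap K ℝ).injective h2)
  have hφT : ∀ s, φ (Tu c hc s) = Tu (cf o M) cf_self s := by
    intro s
    apply Units.ext
    rw [hφ]
    show (algebraMap K ℝ).mapMatrix (1 + Em c s) = 1 + Em (cf o M) s
    rw [map_add, map_one]
    congr 1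
    ext i j
    show (algebraMap K ℝ) (Em c s i j) = _
    rw [Em_apply, Em_apply]
    split_ifs
    · exact hcdef _ _
    · exact map_zero _
  obtain ⟨f, hf⟩ := exists_lift (M := M) (T := T) (fun s => if s ∈ T then Tu c hc s else 1)
    (fun s hs t ht => by
      rw [if_pos hs, if_pos ht]
      apply hφi
      rw [map_alt, map_alt, hφT, hφT]
      exact braid_rel ho hM h1 s t)
    (fun s hs => by rw [if_neg hs])
  refine ⟨GL S K, inferInstance, f, φ.comp f, glK hC hGL K S, fun s hs => ?_, fun w hw => ?_⟩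
  · rw [MonoidHom.comp_apply, hf, if_pos hs, hφT]
  · rw [MonoidHom.comp_apply, hw, map_one]

/-! ### killing the commuting part -/

section kill

variable {S : Type} [Fintype S] [DecidableEq S] {o : S → ℕ} {M : S → S → ℕ}

theorem closure_preimage_top {G : Type} [Group G] {ι : Type} (a : ι → G) (U : Subgroup G)
    (hU : U = Subgroup.closure (Set.range a)) (ha : ∀ i, a i ∈ U) :
    Subgroup.closure (Set.range fun i => (⟨a i, ha i⟩ : U)) = ⊤ := by
  subst hU
  rw [eq_top_iff]
  rintro ⟨x, hx⟩ -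
  have h1 : ∀ y, ∀ hy : y ∈ Subgroup.closure (Set.range a), (⟨y, hy⟩ : Subgroup.closure (Set.range a)) ∈
      Subgroup.closure (Set.range fun i => (⟨a i, ha i⟩ : Subgroup.closure (Set.range a))) := by
    intro y hy
    induction hy using Subgroup.closure_induction with
    | mem y hy =>
      obtain ⟨i, rfl⟩ := hy
      exact Subgroup.subset_closure ⟨i, rfl⟩
    | one => exact Subgroup.one_mem _
    | mul y z hy hz h1 h2 => exact Subgroup.mul_mem _ h1 h2
    | inv y hy h1 => exact Subgroup.inv_mem _ h1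
  exact h1 x hx

theorem kill {ι : Type} [Fintype ι] [DecidableEq ι] {T : Set S} (e : ι → S)
    (he : Function.Injective e) (heT : ∀ i, e i ∈ T)
    (hcomm : ∀ x ∈ T, x ∉ Set.range e → ∀ i, M x (e i) = 2)
    (R : AK M T →* GL S ℝ) (hR : ∀ s ∈ T, R (gen M T s) = Tu (cf o M) cf_self s)
    (hinj : ∀ (W : Type) [Group W] (a : ι → W), Subgroup.closure (Set.range a) = ⊤ →
      (∀ i j, alt (a i) (a j) (M (e i) (e j)) = alt (a j) (a i) (M (e i) (e j))) →
      ∀ Q : W →* GL ι ℝ, (∀ i, Q (a i) = Tu (fun i j => cf o M (e i) (e j)) (fun i => cf_self (e i)) i) →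
        Function.Injective Q) :
    ∀ u ∈ BK M T (Set.range e), ∀ v ∈ BK M T (T \ Set.range e), R (u * v) = 1 → u = 1 := by
  intro u hu v hv huv
  -- the commuting part acts trivially
  have h1 : (R v : Matrix S S ℝ) * Pm ℝ e = Pm ℝ e := by
    clear huv
    rw [BK] at hv
    induction hv using Subgroup.closure_induction with
    | mem x hx =>
      obtain ⟨s, hs, rfl⟩ := hx
      rw [hR s hs.1, coe_Tu, Matrix.add_mul, Matrix.one_mul, Em_mul_Pm_zero, add_zero]
      intro i
      have h2 : s ≠ e i := fun h => hs.2 ⟨i, h.symm⟩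
      rw [cf, if_neg h2, if_pos (hcomm s hs.1 hs.2 i)]
    | one => rw [map_one, Units.val_one, Matrix.one_mul]
    | mul x y _ _ hx hy => rw [map_mul, Units.val_mul, Matrix.mul_assoc, hy, hx]
    | inv x _ hx =>
      rw [map_inv]
      nth_rewrite 1 [← hx]
      rw [← Matrix.mul_assoc, ← Units.val_mul, inv_mul_cancel, Units.val_one, Matrix.one_mul]
  -- the block
  have hU : BK M T (Set.range e) = Subgroup.closure (Set.range fun i => gen M T (e i)) := by
    rw [BK, ← Set.range_comp]
    rfl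
  have ha : ∀ i, gen M T (e i) ∈ BK M T (Set.range e) := fun i =>
    Subgroup.subset_closure ⟨e i, ⟨i, rfl⟩, rfl⟩
  have hgen := closure_preimage_top (fun i => gen M T (e i)) _ hU ha
  obtain ⟨Q, hQ1, hQ2⟩ := exists_block (cf o M) cf_self e he
    (fun i => (⟨gen M T (e i), ha i⟩ : BK M T (Set.range e))) hgen
    (R.comp (BK M T (Set.range e)).subtype) (fun i => hR _ (heT i))
  have hQi := hinj _ _ hgen (fun i j => by
    apply Subtype.ext
    have h2 := map_alt (BK M T (Set.range e)).subtype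
    have h3 := h2 ⟨gen M T (e i), ha i⟩ ⟨gen M T (e j), ha j⟩ (M (e i) (e j))
    have h4 := h2 ⟨gen M T (e j), ha j⟩ ⟨gen M T (e i), ha i⟩ (M (e i) (e j))
    exact h3.trans ((gen_rel (heT i) (heT j)).trans h4.symm)) Q hQ1
  have h5 : (R u : Matrix S S ℝ) * Pm ℝ e = Pm ℝ e := by
    rw [map_mul] at huv
    have h6 : (R u : Matrix S S ℝ) * (R v : Matrix S S ℝ) = 1 := by
      rw [← Units.val_mul, huv, Units.val_one]
    rw [← h1, ← Matrix.mul_assoc, h6, h1, Matrix.one_mul]
  have h7 := hQ2 ⟨u, hu⟩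
  have h8 : Pm ℝ e = Pm ℝ e * (Q ⟨u, hu⟩ : Matrix ι ι ℝ) := by
    rw [← h7]
    exact h5.symm
  have h9 : Q ⟨u, hu⟩ = 1 := by
    apply Units.ext
    have h10 : (Pm ℝ e).transpose * Pm ℝ e =
        (Pm ℝ e).transpose * (Pm ℝ e * (Q ⟨u, hu⟩ : Matrix ι ι ℝ)) :=
      congrArg (fun X => (Pm ℝ e).transpose * X) h8
    rw [← Matrix.mul_assoc, Pt_mul_Pm e he, Matrix.one_mul] at h10
    rw [Units.val_one]
    exact h10.symm
  have h11 : (⟨u, hu⟩ : BK M T (Set.range e)) = 1 := hQi (h9.trans (map_one Q).symm)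
  exact congrArg Subtype.val h11

/-- pieces without relations -/
theorem inj_free {ι : Type} [Fintype ι] [DecidableEq ι] (e : ι → S) (he : Function.Injective e)
    (h0 : ∀ i j, i ≠ j → M (e i) (e j) = 0) :
    ∀ (W : Type) [Group W] (a : ι → W), Subgroup.closure (Set.range a) = ⊤ →
      (∀ i j, alt (a i) (a j) (M (e i) (e j)) = alt (a j) (a i) (M (e i) (e j))) →
      ∀ Q : W →* GL ι ℝ, (∀ i, Q (a i) = Tu (fun i j => cf o M (e i) (e j)) (fun i => cf_self (e i)) i) →
        Function.Injective Q := by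
  intro W _ a hgen _ Q hQ
  refine free_inj (fun i j => cf o M (e i) (e j)) (fun i => cf_self (e i)) (fun i j hij => ?_) a hgen Q hQ
  rw [cf, if_neg fun h => hij (he h), if_neg (by rw [h0 i j hij]; norm_num), if_pos (h0 i j hij)]

/-- pieces with two elements -/
theorem inj_two (ho : Function.Injective o) (hM : ∀ s t, M s t = M t s)
    (h1 : ∀ s t, s ≠ t → M s t ≠ 1) {s t : S} (hst : s ≠ t) (h0 : M s t ≠ 0) :
    ∀ (W : Type) [Group W] (a : Fin 2 → W), Subgroup.closure (Set.range a) = ⊤ →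
      (∀ i j, alt (a i) (a j) (M (![s, t] i) (![s, t] j)) = alt (a j) (a i) (M (![s, t] i) (![s, t] j))) →
      ∀ Q : W →* GL (Fin 2) ℝ, (∀ i, Q (a i) = Tu (fun i j => cf o M (![s, t] i) (![s, t] j))
        (fun i => cf_self (![s, t] i)) i) → Function.Injective Q := by
  intro W _ a hgen hrel Q hQ
  have hQ0 : Q (a 0) = mA (cf o M s t) := by
    rw [hQ]
    apply Units.ext
    rw [coe_Tu, coe_mA]
    ext i j
    have h2 : cf o M s s = 1 := cf_self s
    fin_cases i <;> fin_cases j <;> simp [Em_apply, h2]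
    norm_num
  have hQ1 : Q (a 1) = mB (cf o M t s) := by
    rw [hQ]
    apply Units.ext
    rw [coe_Tu, coe_mB]
    ext i j
    have h2 : cf o M t t = 1 := cf_self t
    fin_cases i <;> fin_cases j <;> simp [Em_apply, h2]
    norm_num
  have hra : Set.range a = {a 0, a 1} := by
    ext x
    constructor
    · rintro ⟨i, rfl⟩
      fin_cases i
      · exact Or.inl rfl
      · exact Or.inr rfl
    · rintro (rfl | rfl)
      · exact ⟨0, rfl⟩
      · exact ⟨1, rfl⟩
  rw [hra] at hgen
  have hrel' : alt (a 0) (a 1) (M s t) = alt (a 1) (a 0) (M s t) := hrel 0 1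
  rcases Nat.lt_or_ge (M s t) 3 with h3 | h3
  · -- commuting generators
    have h4 : M s t = 2 := by have := h1 s t hst; omega
    have hz1 : cf o M s t = 0 := by rw [cf, if_neg hst, if_pos h4]
    have hz2 : cf o M t s = 0 := by rw [cf, if_neg hst.symm, if_pos (by rw [hM]; exact h4)]
    rw [hz1] at hQ0
    rw [hz2] at hQ1
    rw [h4] at hrel'
    have hcomm : a 0 * a 1 = a 1 * a 0 := by
      have h5 : a 0 * (a 1 * 1) = a 1 * (a 0 * 1) := hrel'
      rwa [mul_one, mul_one] at h5
    have hall : ∀ w : W, ∃ i j : ℤ, w = a 0 ^ i * a 1 ^ j := by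
      intro w
      have hw : w ∈ Subgroup.closure {a 0, a 1} := by rw [hgen]; trivial
      induction hw using Subgroup.closure_induction with
      | mem x hx =>
        rcases hx with rfl | hx
        · exact ⟨1, 0, by rw [zpow_one, zpow_zero, mul_one]⟩
        · rw [Set.mem_singleton_iff.1 hx]
          exact ⟨0, 1, by rw [zpow_one, zpow_zero, one_mul]⟩
      | one => exact ⟨0, 0, by rw [zpow_zero, zpow_zero, mul_one]⟩
      | mul x y _ _ hx hy =>
        obtain ⟨i, j, rfl⟩ := hx
        obtain ⟨i', j', rfl⟩ := hy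
        refine ⟨i + i', j + j', ?_⟩
        have h6 : a 1 ^ j * a 0 ^ i' = a 0 ^ i' * a 1 ^ j :=
          ((show Commute (a 0) (a 1) from hcomm).zpow_zpow i' j).eq.symm
        rw [zpow_add, zpow_add, mul_assoc, ← mul_assoc (a 1 ^ j), h6]
        simp only [mul_assoc]
      | inv x _ hx =>
        obtain ⟨i, j, rfl⟩ := hx
        refine ⟨-i, -j, ?_⟩
        rw [mul_inv_rev, zpow_neg, zpow_neg]
        exact ((show Commute (a 0) (a 1) from hcomm).zpow_zpow i j).inv_inv.eq.symm
    have h10 : ∀ k : ℤ, (2 : ℝ) ^ k = 1 → k = 0 := by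
      intro k hk
      by_contra hne
      exact hne ((zpow_eq_one_iff_right₀ (by norm_num : (0 : ℝ) ≤ 2) (by norm_num : (2 : ℝ) ≠ 1)).1 hk)
    rw [injective_iff_map_eq_one]
    intro w hw
    obtain ⟨i, j, rfl⟩ := hall w
    rw [map_mul, map_zpow, map_zpow, hQ, hQ] at hw
    have h7 : ((Tu (fun i j => cf o M (![s, t] i) (![s, t] j)) (fun i => cf_self (![s, t] i)) 0 ^ i :
        GL (Fin 2) ℝ) : Matrix (Fin 2) (Fin 2) ℝ) *
        ((Tu (fun i j => cf o M (![s, t] i) (![s, t] j)) (fun i => cf_self (![s, t] i)) 1 ^ j :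
        GL (Fin 2) ℝ) : Matrix (Fin 2) (Fin 2) ℝ) = 1 := by
      rw [← Units.val_mul, hw, Units.val_one]
    rw [Tu_zpow, Tu_zpow] at h7
    have e1 : cf o M s s = 1 := cf_self s
    have e2 : cf o M t t = 1 := cf_self t
    have h8 := congrFun (congrFun h7 0) 0
    have h9 := congrFun (congrFun h7 1) 1
    simp [Matrix.mul_apply, Fin.sum_univ_two, Em_apply, hz1, hz2, e1, e2] at h8 h9
    have h11 := h10 i (by linarith)
    have h12 := h10 j (by linarith)
    rw [h11, h12, zpow_zero, zpow_zero, mul_one]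
  · have h4 := cf_mul ho hM hst (by omega) (by omega)
    have hpos := cos_pos h3
    have hne : cf o M s t * cf o M t s ≠ 0 := by
      rw [h4]
      have : 0 < (2 * Real.cos (Real.pi / (M s t : ℕ))) ^ 2 := by positivity
      linarith
    exact dih_inj h3 hne h4 hgen hrel' Q hQ0 hQ1

end kill

end Pool.Agent.U68.AR
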