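import Pool.Agent.U68.AR.Fld
import Pool.Agent.Helper705_SA.Amalg

/-!
# Gluing
-/

set_option autoImplicit false

namespace Pool.Agent.U68.AR

open Pool.Agent.Y110.FJ Pool.Agent.Y462.SS Pool.Agent.Helper705_SA

variable {C : ∀ (G : Type) [Group G], Prop}

/-- amalgams -/
theorem amalgam_mem (hC : ClosedE C) {G : Type} [Group G] (A B : Subgroup G) (h : IsAmalgam A B)
    (hA : C A) (hB : C B) (P : Type) [Group P] (hP : C P) (f : G →* P)
    (hf : ∀ g, g ∈ A → g ∈ B → f g = 1 → g = 1) : C G := by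
  classical
  refine Pool.Agent.N509.TK.edges (T := cosetGraph A B) hC (cosetGraph_isTree A B h) ?_ ?_ ?_
  · rintro g v w ⟨k, ⟨rfl, rfl⟩ | ⟨rfl, rfl⟩⟩
    · exact ⟨g * k, Or.inl ⟨rfl, rfl⟩⟩
    · exact ⟨g * k, Or.inr ⟨rfl, rfl⟩⟩
  · have conjEquiv : ∀ (D : Subgroup G) (g : G), C D →
        C (MulAction.stabilizer G (QuotientGroup.mk g : G ⧸ D)) := by
      intro D g hD
      rw [stab_coset]
      exact hC.base.of_injective _ _ (D.equivMapOfInjective _ (MulAut.conj g).injective).symm.toMonoidHom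
        (D.equivMapOfInjective _ (MulAut.conj g).injective).symm.injective hD
    rintro (v | v)
    · obtain ⟨g, rfl⟩ := QuotientGroup.mk_surjective v
      have h1 : MulAction.stabilizer G (Sum.inl (QuotientGroup.mk g) : (G ⧸ A) ⊕ (G ⧸ B)) =
          MulAction.stabilizer G (QuotientGroup.mk g : G ⧸ A) := by
        ext x
        rw [MulAction.mem_stabilizer_iff, MulAction.mem_stabilizer_iff]
        exact Sum.inl_injective.eq_iff (a := x • (QuotientGroup.mk g : G ⧸ A))
      rw [h1]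
      exact conjEquiv A g hA
    · obtain ⟨g, rfl⟩ := QuotientGroup.mk_surjective v
      have h1 : MulAction.stabilizer G (Sum.inr (QuotientGroup.mk g) : (G ⧸ A) ⊕ (G ⧸ B)) =
          MulAction.stabilizer G (QuotientGroup.mk g : G ⧸ B) := by
        ext x
        rw [MulAction.mem_stabilizer_iff, MulAction.mem_stabilizer_iff]
        exact Sum.inr_injective.eq_iff (a := x • (QuotientGroup.mk g : G ⧸ B))
      rw [h1]
      exact conjEquiv B g hB
  · have key : ∀ k x : G, x • (QuotientGroup.mk k : G ⧸ A) = QuotientGroup.mk k →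
        x • (QuotientGroup.mk k : G ⧸ B) = QuotientGroup.mk k → f x = 1 → x = 1 := by
      intro k x hxA hxB hx
      have h1 : k⁻¹ * x * k ∈ A := by
        have h2 : (QuotientGroup.mk (x * k) : G ⧸ A) = QuotientGroup.mk k := hxA
        rw [eq_comm, QuotientGroup.eq] at h2
        rwa [mul_assoc]
      have h2 : k⁻¹ * x * k ∈ B := by
        have h2 : (QuotientGroup.mk (x * k) : G ⧸ B) = QuotientGroup.mk k := hxB
        rw [eq_comm, QuotientGroup.eq] at h2
        rwa [mul_assoc]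
      have h3 := hf _ h1 h2 (by rw [map_mul, map_mul, hx, mul_one, ← map_mul, inv_mul_cancel, map_one])
      have h4 : x = k * (k⁻¹ * x * k) * k⁻¹ := by group
      rw [h4, h3, mul_one, mul_inv_cancel]
    rintro u v ⟨k, ⟨rfl, rfl⟩ | ⟨rfl, rfl⟩⟩
    · refine ⟨P, inferInstance, f, hP, fun x h1 h2 hx => key k x ?_ ?_ hx⟩
      · exact Sum.inl_injective h1
      · exact Sum.inr_injective h2
    · refine ⟨P, inferInstance, f, hP, fun x h1 h2 hx => key k x ?_ ?_ hx⟩
      · exact Sum.inl_injective h2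
      · exact Sum.inr_injective h1

section

variable {S : Type} {M : S → S → ℕ}

/-- the universal property of the union -/
theorem exists_union {T1 T2 : Set S}
    (hinf : ∀ s ∈ T1, s ∉ T2 → ∀ t ∈ T2, t ∉ T1 → M s t = 0 ∧ M t s = 0)
    {K : Type} [Group K] (f1 : AK M T1 →* K) (f2 : AK M T2 →* K)
    (hf : ∀ s ∈ T1, s ∈ T2 → f1 (gen M T1 s) = f2 (gen M T2 s)) :
    ∃ Φ : AK M (T1 ∪ T2) →* K, Φ.comp (inc Set.subset_union_left) = f1 ∧
      Φ.comp (inc Set.subset_union_right) = f2 := by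
  classical
  obtain ⟨F, hF⟩ : ∃ F : S → K, F = fun s => if s ∈ T1 then f1 (gen M T1 s) else f2 (gen M T2 s) :=
    ⟨_, rfl⟩
  have hF1 : ∀ s ∈ T1, F s = f1 (gen M T1 s) := fun s hs => by rw [hF]; exact if_pos hs
  have hF2 : ∀ s ∈ T2, F s = f2 (gen M T2 s) := fun s hs => by
    by_cases h : s ∈ T1
    · rw [hF1 s h]; exact hf s h hs
    · rw [hF]; exact if_neg h
  obtain ⟨Φ, hΦ⟩ := exists_lift (M := M) (T := T1 ∪ T2) F
    (fun s hs t ht => by
      have hr1 : s ∈ T1 → t ∈ T1 → alt (F s) (F t) (M s t) = alt (F t) (F s) (M s t) := by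
        intro h1 h2
        rw [hF1 s h1, hF1 t h2, ← map_alt, ← map_alt, gen_rel h1 h2]
      have hr2 : s ∈ T2 → t ∈ T2 → alt (F s) (F t) (M s t) = alt (F t) (F s) (M s t) := by
        intro h1 h2
        rw [hF2 s h1, hF2 t h2, ← map_alt, ← map_alt, gen_rel h1 h2]
      by_cases h1 : s ∈ T1 <;> by_cases h2 : t ∈ T1
      · exact hr1 h1 h2
      · have h3 : t ∈ T2 := ht.resolve_left h2
        by_cases h4 : s ∈ T2
        · exact hr2 h4 h3
        · rw [(hinf s h1 h4 t h3 h2).1]; rfl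
      · have h3 : s ∈ T2 := hs.resolve_left h1
        by_cases h4 : t ∈ T2
        · exact hr2 h3 h4
        · rw [(hinf t h2 h4 s h3 h1).2]; rfl
      · exact hr2 (hs.resolve_left h1) (ht.resolve_left h2))
    (fun s hs => by
      have h1 : s ∉ T1 := fun h => hs (Or.inl h)
      have h2 : s ∉ T2 := fun h => hs (Or.inr h)
      rw [hF]
      show (if s ∈ T1 then _ else _) = _
      rw [if_neg h1, gen_not h2, map_one])
  refine ⟨Φ, ak_ext fun s hs => ?_, ak_ext fun s hs => ?_⟩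
  · rw [MonoidHom.comp_apply, inc_gen _ hs, hΦ, hF1 s hs]
  · rw [MonoidHom.comp_apply, inc_gen _ hs, hΦ, hF2 s hs]

/-- **gluing with a homomorphism** -/
theorem glue_hom (hC : ClosedE C) {T1 T2 : Set S}
    (hinf : ∀ s ∈ T1, s ∉ T2 → ∀ t ∈ T2, t ∉ T1 → M s t = 0 ∧ M t s = 0)
    (P : Type) [Group P] (hP : C P) (f : AK M (T1 ∪ T2) →* P)
    (hf : ∀ w : AK M (T1 ∩ T2), f (inc (Set.inter_subset_left.trans Set.subset_union_left) w) = 1 → w = 1)
    (h1 : C (AK M T1)) (h2 : C (AK M T2)) : C (AK M (T1 ∪ T2)) := by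
  classical
  obtain ⟨i1, hi1⟩ : ∃ i1 : AK M T1 →* AK M (T1 ∪ T2), i1 = inc Set.subset_union_left := ⟨_, rfl⟩
  obtain ⟨i2, hi2⟩ : ∃ i2 : AK M T2 →* AK M (T1 ∪ T2), i2 = inc Set.subset_union_right := ⟨_, rfl⟩
  obtain ⟨j1, hj1⟩ : ∃ j1 : AK M (T1 ∩ T2) →* AK M T1, j1 = inc Set.inter_subset_left := ⟨_, rfl⟩
  obtain ⟨j2, hj2⟩ : ∃ j2 : AK M (T1 ∩ T2) →* AK M T2, j2 = inc Set.inter_subset_right := ⟨_, rfl⟩
  have hij1 : ∀ w, i1 (j1 w) = inc (Set.inter_subset_left.trans Set.subset_union_left) w := by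
    intro w; rw [hi1, hj1, inc_inc]
  have hij2 : ∀ w, i2 (j2 w) = inc (Set.inter_subset_left.trans Set.subset_union_left) w := by
    intro w; rw [hi2, hj2, inc_inc]
  have hj1i : Function.Injective j1 := by
    rw [injective_iff_map_eq_one]
    intro w hw
    refine hf w ?_
    rw [← hij1, hw, map_one, map_one]
  have hj2i : Function.Injective j2 := by
    rw [injective_iff_map_eq_one]
    intro w hw
    refine hf w ?_
    rw [← hij2, hw, map_one, map_one]
  -- the pushout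
  let Gf : Bool → Type := fun b => AK M (cond b T1 T2)
  let φ : ∀ b : Bool, AK M (T1 ∩ T2) →* Gf b := fun b => match b with
    | true => j1
    | false => j2
  have hφ : ∀ b, Function.Injective (φ b) := fun b => match b with
    | true => hj1i
    | false => hj2i
  let o1 : AK M T1 →* Monoid.PushoutI φ := Monoid.PushoutI.of (φ := φ) true
  let o2 : AK M T2 →* Monoid.PushoutI φ := Monoid.PushoutI.of (φ := φ) false
  have ho1 : Function.Injective o1 := Monoid.PushoutI.of_injective hφ true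
  have ho2 : Function.Injective o2 := Monoid.PushoutI.of_injective hφ false
  have hb1 : ∀ w, o1 (j1 w) = Monoid.PushoutI.base φ w := fun w =>
    Monoid.PushoutI.of_apply_eq_base φ true w
  have hb2 : ∀ w, o2 (j2 w) = Monoid.PushoutI.base φ w := fun w =>
    Monoid.PushoutI.of_apply_eq_base φ false w
  obtain ⟨Φ, hΦ1, hΦ2⟩ := exists_union hinf o1 o2 (fun s hs1 hs2 => by
    have e0 : s ∈ T1 ∩ T2 := ⟨hs1, hs2⟩
    have e1 : gen M T1 s = j1 (gen M (T1 ∩ T2) s) := by rw [hj1, inc_gen _ e0]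
    have e2 : gen M T2 s = j2 (gen M (T1 ∩ T2) s) := by rw [hj2, inc_gen _ e0]
    rw [e1, e2, hb1, hb2])
  rw [← hi1] at hΦ1
  rw [← hi2] at hΦ2
  have hi1i : Function.Injective i1 := by
    have h3 : Function.Injective (Φ.comp i1) := by rw [hΦ1]; exact ho1
    exact Function.Injective.of_comp h3
  have hi2i : Function.Injective i2 := by
    have h3 : Function.Injective (Φ.comp i2) := by rw [hΦ2]; exact ho2
    exact Function.Injective.of_comp h3
  have hinter : ∀ g, g ∈ i1.range → g ∈ i2.range → ∃ w, g = i1 (j1 w) := by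
    rintro g ⟨x, rfl⟩ ⟨y, hy⟩
    have h3 : o1 x = o2 y := by
      rw [← hΦ1, ← hΦ2, MonoidHom.comp_apply, MonoidHom.comp_apply, hy]
    have h4 := Monoid.PushoutI.inf_of_range_eq_base_range hφ (i := true) (j := false) (by simp)
    have h5 : o1 x ∈ (Monoid.PushoutI.base φ).range := by
      rw [← h4]
      exact ⟨⟨x, rfl⟩, ⟨y, h3.symm⟩⟩
    obtain ⟨w, hw⟩ := h5
    refine ⟨w, ?_⟩
    congr 1
    apply ho1
    rw [hb1, hw]
  refine amalgam_mem hC i1.range i2.range ?_ ?_ ?_ P hP f ?_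
  · constructor
    · refine ak_gen fun s hs => ?_
      rcases hs with hs | hs
      · exact Subgroup.mem_sup_left ⟨gen M T1 s, by rw [hi1, inc_gen _ hs]⟩
      · exact Subgroup.mem_sup_right ⟨gen M T2 s, by rw [hi2, inc_gen _ hs]⟩
    · intro K _ g1 g2 hg
      obtain ⟨Ψ, h3, h4⟩ := exists_union hinf (g1.comp i1.rangeRestrict) (g2.comp i2.rangeRestrict)
        (fun s hs1 hs2 => by
          have e1 : i1 (gen M T1 s) = i2 (gen M T2 s) := by
            rw [hi1, hi2, inc_gen _ hs1, inc_gen _ hs2]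
          have e2 : i1 (gen M T1 s) ∈ i2.range := ⟨_, e1.symm⟩
          have e3 := hg (i1 (gen M T1 s)) ⟨_, rfl⟩ e2
          rw [MonoidHom.comp_apply, MonoidHom.comp_apply]
          refine Eq.trans e3 ?_
          congr 1
          exact Subtype.ext e1)
      refine ⟨Ψ, ?_, ?_⟩
      · rintro ⟨_, x, rfl⟩
        have := DFunLike.congr_fun h3 x
        rw [← hi1] at this
        exact this
      · rintro ⟨_, x, rfl⟩
        have := DFunLike.congr_fun h4 x
        rw [← hi2] at this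
        exact this
  · exact hC.base.of_injective _ _ (MonoidHom.ofInjective hi1i).symm.toMonoidHom
      (MonoidHom.ofInjective hi1i).symm.injective h1
  · exact hC.base.of_injective _ _ (MonoidHom.ofInjective hi2i).symm.toMonoidHom
      (MonoidHom.ofInjective hi2i).symm.injective h2
  · intro g hg1 hg2 hg
    obtain ⟨w, rfl⟩ := hinter g hg1 hg2
    rw [hij1] at hg ⊢
    rw [hf w hg, map_one]

/-! ### commuting parts -/

theorem mul_decomp {X Y : Set S} (h2 : ∀ x ∈ X, ∀ y ∈ Y, M x y = 2) (w : AK M (X ∪ Y)) :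
    ∃ u ∈ BK M (X ∪ Y) Y, ∃ v ∈ BK M (X ∪ Y) X, w = u * v := by
  have hcomm : ∀ x ∈ X, ∀ y ∈ Y, Commute (gen M (X ∪ Y) x) (gen M (X ∪ Y) y) := by
    intro x hx y hy
    have h3 := gen_rel (M := M) (T := X ∪ Y) (Or.inl hx) (Or.inr hy)
    rw [h2 x hx y hy] at h3
    have h4 : gen M (X ∪ Y) x * (gen M (X ∪ Y) y * 1) = gen M (X ∪ Y) y * (gen M (X ∪ Y) x * 1) := h3
    rwa [mul_one, mul_one] at h4
  have hcomm2 : ∀ v ∈ BK M (X ∪ Y) X, ∀ u ∈ BK M (X ∪ Y) Y, v * u = u * v := by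
    intro v hv u hu
    have h3 : BK M (X ∪ Y) X ≤ Subgroup.centralizer (gen M (X ∪ Y) '' Y) := by
      rw [BK, Subgroup.closure_le]
      rintro _ ⟨x, hx, rfl⟩
      rw [SetLike.mem_coe, Subgroup.mem_centralizer_iff]
      rintro _ ⟨y, hy, rfl⟩
      exact (hcomm x hx y hy).symm.eq
    have h4 : BK M (X ∪ Y) Y ≤ Subgroup.centralizer {v} := by
      rw [BK, Subgroup.closure_le]
      intro y hy
      rw [SetLike.mem_coe, Subgroup.mem_centralizer_iff]
      intro v' hv'
      rw [Set.mem_singleton_iff.1 hv']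
      exact ((Subgroup.mem_centralizer_iff.1 (h3 hv)) y hy).symm
    exact (Subgroup.mem_centralizer_iff.1 (h4 hu)) v rfl
  let H : Subgroup (AK M (X ∪ Y)) :=
    { carrier := {w | ∃ u ∈ BK M (X ∪ Y) Y, ∃ v ∈ BK M (X ∪ Y) X, w = u * v}
      one_mem' := ⟨1, Subgroup.one_mem _, 1, Subgroup.one_mem _, (mul_one _).symm⟩
      mul_mem' := by
        rintro _ _ ⟨u, hu, v, hv, rfl⟩ ⟨u', hu', v', hv', rfl⟩
        refine ⟨u * u', Subgroup.mul_mem _ hu hu', v * v', Subgroup.mul_mem _ hv hv', ?_⟩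
        rw [mul_assoc, ← mul_assoc v, hcomm2 v hv u' hu']
        simp only [mul_assoc]
      inv_mem' := by
        rintro _ ⟨u, hu, v, hv, rfl⟩
        refine ⟨u⁻¹, Subgroup.inv_mem _ hu, v⁻¹, Subgroup.inv_mem _ hv, ?_⟩
        rw [mul_inv_rev]
        exact hcomm2 _ (Subgroup.inv_mem _ hv) _ (Subgroup.inv_mem _ hu) }
  have h3 : H = ⊤ := ak_gen fun s hs => by
    rcases hs with hs | hs
    · exact ⟨1, Subgroup.one_mem _, _, Subgroup.subset_closure ⟨s, hs, rfl⟩, (one_mul _).symm⟩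
    · exact ⟨_, Subgroup.subset_closure ⟨s, hs, rfl⟩, 1, Subgroup.one_mem _, (mul_one _).symm⟩
  have h4 : w ∈ H := by rw [h3]; trivial
  exact h4

end

end Pool.Agent.U68.AR
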