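import Pool.Agent.U68.AR.Alt

/-!
# The matrices of the representation of the dihedral Artin groups
-/

set_option autoImplicit false

namespace Pool.Agent.U68.AR

open Matrix

/-- a matrix `!![2, x; 0, 1]` -/
noncomputable def mA (x : ℝ) : GL (Fin 2) ℝ :=
  Matrix.GeneralLinearGroup.mkOfDetNeZero !![2, x; 0, 1] (by simp [Matrix.det_fin_two])

/-- a matrix `!![1, 0; y, 2]` -/
noncomputable def mB (y : ℝ) : GL (Fin 2) ℝ :=
  Matrix.GeneralLinearGroup.mkOfDetNeZero !![1, 0; y, 2] (by simp [Matrix.det_fin_two])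

/-- a matrix `!![0, x; y, 0]` -/
noncomputable def mJ (x y : ℝ) (h : x * y ≠ 0) : GL (Fin 2) ℝ :=
  Matrix.GeneralLinearGroup.mkOfDetNeZero !![0, x; y, 0] (by simpa [Matrix.det_fin_two] using h)

theorem coe_mA (x : ℝ) : (mA x : Matrix (Fin 2) (Fin 2) ℝ) = !![2, x; 0, 1] := rfl
theorem coe_mB (y : ℝ) : (mB y : Matrix (Fin 2) (Fin 2) ℝ) = !![1, 0; y, 2] := rfl
theorem coe_mJ (x y : ℝ) (h : x * y ≠ 0) :
    (mJ x y h : Matrix (Fin 2) (Fin 2) ℝ) = !![0, x; y, 0] := rfl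

theorem J_A (x y : ℝ) (h : x * y ≠ 0) : mJ x y h * mA x * (mJ x y h)⁻¹ = mB y := by
  rw [mul_inv_eq_iff_eq_mul]
  apply Units.ext
  rw [Units.val_mul, Units.val_mul, coe_mA, coe_mB, coe_mJ]
  ext i j
  fin_cases i <;> fin_cases j <;> simp [Matrix.mul_apply, Fin.sum_univ_two]
  ring

theorem J_B (x y : ℝ) (h : x * y ≠ 0) : mJ x y h * mB y * (mJ x y h)⁻¹ = mA x := by
  rw [mul_inv_eq_iff_eq_mul]
  apply Units.ext
  rw [Units.val_mul, Units.val_mul, coe_mA, coe_mB, coe_mJ]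
  ext i j
  fin_cases i <;> fin_cases j <;> simp [Matrix.mul_apply, Fin.sum_univ_two]
  ring

theorem J_sq (x y : ℝ) (h : x * y ≠ 0) :
    ((mJ x y h ^ 2 : GL (Fin 2) ℝ) : Matrix (Fin 2) (Fin 2) ℝ) = (x * y) • 1 := by
  rw [pow_two, Units.val_mul, coe_mJ]
  ext i j
  fin_cases i <;> fin_cases j <;> simp [Matrix.mul_apply, Fin.sum_univ_two]
  ring

/-- the product `A J` -/
noncomputable def mU (x y : ℝ) (h : x * y ≠ 0) : GL (Fin 2) ℝ := mA x * mJ x y h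

theorem coe_mU (x y : ℝ) (h : x * y ≠ 0) :
    (mU x y h : Matrix (Fin 2) (Fin 2) ℝ) = !![x * y, 2 * x; y, 0] := by
  rw [mU, Units.val_mul, coe_mA, coe_mJ]
  ext i j
  fin_cases i <;> fin_cases j <;> simp [Matrix.mul_apply, Fin.sum_univ_two]

/-- powers of a matrix with `R ^ 2 = 2 cos θ R - 1` -/
theorem pow_R {R : Matrix (Fin 2) (Fin 2) ℝ} {θ : ℝ} (hR : R * R = (2 * Real.cos θ) • R - 1) (n : ℕ) :
    Real.sin θ • R ^ n = Real.sin (n * θ) • R - Real.sin ((n - 1) * θ) • (1 : Matrix (Fin 2) (Fin 2) ℝ) := by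
  induction n with
  | zero =>
    simp only [pow_zero, Nat.cast_zero, zero_mul, Real.sin_zero, zero_smul, zero_sub, neg_one_mul]
    rw [Real.sin_neg, neg_smul, neg_neg]
  | succ n ih =>
    have h1 : Real.sin θ • R ^ (n + 1) = R * (Real.sin θ • R ^ n) := by
      rw [pow_succ', mul_smul_comm]
    rw [h1, ih, mul_sub, mul_smul_comm, mul_smul_comm, hR, mul_one]
    have h2 : Real.sin (((n + 1 : ℕ) : ℝ) * θ) = 2 * Real.cos θ * Real.sin (n * θ) -
        Real.sin ((n - 1) * θ) := by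
      have e1 : ((n + 1 : ℕ) : ℝ) * θ = n * θ + θ := by push_cast; ring
      have e2 : ((n : ℝ) - 1) * θ = n * θ - θ := by ring
      rw [e1, e2, Real.sin_add, Real.sin_sub]
      ring
    have h3 : Real.sin ((((n + 1 : ℕ) : ℝ) - 1) * θ) = Real.sin (n * θ) := by
      congr 1
      push_cast
      ring
    rw [h2, h3, smul_sub, smul_smul, sub_smul, mul_comm (Real.sin (n * θ)) (2 * Real.cos θ)]
    abel

theorem U_pow {m : ℕ} (hm : 3 ≤ m) {x y : ℝ} (h : x * y ≠ 0)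
    (hxy : x * y = -2 * (2 * Real.cos (Real.pi / m)) ^ 2) :
    ∃ c : ℝ, c ≠ 0 ∧ ((mU x y h ^ m : GL (Fin 2) ℝ) : Matrix (Fin 2) (Fin 2) ℝ) = c • 1 := by
  obtain ⟨l, hl⟩ : ∃ l : ℝ, l = 2 * Real.cos (Real.pi / m) := ⟨_, rfl⟩
  rw [← hl] at hxy
  have hl0 : l ≠ 0 := by
    rintro rfl
    apply h
    rw [hxy]
    norm_num
  obtain ⟨R, hR⟩ : ∃ R : Matrix (Fin 2) (Fin 2) ℝ, R = (-(1 / (2 * l))) • !![x * y, 2 * x; y, 0] :=
    ⟨_, rfl⟩
  have hUR : !![x * y, 2 * x; y, 0] = (-(2 * l)) • R := by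
    rw [hR, smul_smul]
    have : -(2 * l) * -(1 / (2 * l)) = 1 := by field_simp
    rw [this, one_smul]
  have hR2 : R * R = (2 * Real.cos (Real.pi / m)) • R - 1 := by
    have hU2 : !![x * y, 2 * x; y, 0] * !![x * y, 2 * x; y, 0] =
        (x * y) • !![x * y, 2 * x; y, 0] + (2 * (x * y)) • (1 : Matrix (Fin 2) (Fin 2) ℝ) := by
      ext i j
      fin_cases i <;> fin_cases j <;> simp [Matrix.mul_apply, Fin.sum_univ_two] <;> ring
    rw [← hl, hR, smul_mul_smul_comm, hU2, smul_add, smul_smul, smul_smul, smul_smul, hxy]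
    have e1 : -(1 / (2 * l)) * -(1 / (2 * l)) * (-2 * l ^ 2) = l * -(1 / (2 * l)) := by
      field_simp
    have e2 : -(1 / (2 * l)) * -(1 / (2 * l)) * (2 * (-2 * l ^ 2)) = -1 := by
      field_simp
    rw [e1, e2, neg_one_smul, sub_eq_add_neg]
  have hs : Real.sin (Real.pi / m) ≠ 0 := by
    have h1 : 0 < Real.pi / m := by positivity
    have h2 : Real.pi / m < Real.pi := by
      apply div_lt_self Real.pi_pos
      exact_mod_cast (by omega : 1 < m)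
    exact (Real.sin_pos_of_pos_of_lt_pi h1 h2).ne'
  have hRm : R ^ m = -1 := by
    have h1 := pow_R hR2 m
    have hm0 : (m : ℝ) ≠ 0 := by positivity
    have h2 : (m : ℝ) * (Real.pi / m) = Real.pi := by field_simp
    have h3 : ((m : ℝ) - 1) * (Real.pi / m) = Real.pi - Real.pi / m := by field_simp
    rw [h2, h3, Real.sin_pi, zero_smul, Real.sin_pi_sub, zero_sub, ← smul_neg] at h1
    exact smul_right_injective _ hs h1
  refine ⟨-(-(2 * l)) ^ m, neg_ne_zero.2 (pow_ne_zero _ (by simpa using hl0)), ?_⟩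
  rw [Units.val_pow_eq_pow_val, coe_mU, hUR, smul_pow, hRm, smul_neg, neg_smul]

/-! ### the action on the projective line -/

open OnePoint

theorem scalar_act (g : GL (Fin 2) ℝ) (c : ℝ) (hc : c ≠ 0)
    (hg : (g : Matrix (Fin 2) (Fin 2) ℝ) = c • 1) (p : OnePoint ℝ) : g • p = p := by
  have h00 : g 0 0 = c := by
    show (g : Matrix (Fin 2) (Fin 2) ℝ) 0 0 = c
    rw [hg]; simp
  have h01 : g 0 1 = 0 := by
    show (g : Matrix (Fin 2) (Fin 2) ℝ) 0 1 = 0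
    rw [hg]; simp
  have h10 : g 1 0 = 0 := by
    show (g : Matrix (Fin 2) (Fin 2) ℝ) 1 0 = 0
    rw [hg]; simp
  have h11 : g 1 1 = c := by
    show (g : Matrix (Fin 2) (Fin 2) ℝ) 1 1 = c
    rw [hg]; simp
  induction p using OnePoint.rec with
  | infty => rw [OnePoint.smul_infty_eq_ite, if_pos h10]
  | coe k =>
    rw [OnePoint.smul_some_eq_ite, h00, h01, h10, h11, if_neg (by simpa using hc)]
    congr 1
    rw [add_zero, zero_mul, zero_add, mul_comm c k, mul_div_assoc, div_self hc, mul_one]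

theorem act_U {x y l ζ : ℝ} (h : x * y ≠ 0) (hxy : x * y = -2 * l ^ 2) (hζ : l * ζ / x ≠ 0) :
    ∃ ζ' : ℝ, mU x y h • (ζ : OnePoint ℝ) = (ζ' : OnePoint ℝ) ∧ l * ζ' / x = l - 1 / (l * ζ / x) := by
  have hx : x ≠ 0 := left_ne_zero_of_mul h
  have hy : y ≠ 0 := right_ne_zero_of_mul h
  have hl : l ≠ 0 := by rintro rfl; simp at hζ
  have hζ0 : ζ ≠ 0 := by rintro rfl; simp at hζ
  have h00 : mU x y h 0 0 = x * y := by
    show (mU x y h : Matrix (Fin 2) (Fin 2) ℝ) 0 0 = _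
    rw [coe_mU]; rfl
  have h01 : mU x y h 0 1 = 2 * x := by
    show (mU x y h : Matrix (Fin 2) (Fin 2) ℝ) 0 1 = _
    rw [coe_mU]; rfl
  have h10 : mU x y h 1 0 = y := by
    show (mU x y h : Matrix (Fin 2) (Fin 2) ℝ) 1 0 = _
    rw [coe_mU]; rfl
  have h11 : mU x y h 1 1 = 0 := by
    show (mU x y h : Matrix (Fin 2) (Fin 2) ℝ) 1 1 = _
    rw [coe_mU]; rfl
  refine ⟨(x * y * ζ + 2 * x) / (y * ζ + 0), ?_, ?_⟩
  · rw [OnePoint.smul_some_eq_ite, h00, h01, h10, h11, if_neg (by simp [hy, hζ0])]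
  · rw [add_zero]
    field_simp
    linear_combination (1 : ℝ) * hxy

theorem act_J {x y l ζ : ℝ} (h : x * y ≠ 0) (hxy : x * y = -2 * l ^ 2) (hζ : l * ζ / x ≠ 0) :
    ∃ ζ' : ℝ, mJ x y h • (ζ : OnePoint ℝ) = (ζ' : OnePoint ℝ) ∧
      l * ζ' / x = -(1 / (2 * (l * ζ / x))) := by
  have hx : x ≠ 0 := left_ne_zero_of_mul h
  have hy : y ≠ 0 := right_ne_zero_of_mul h
  have hl : l ≠ 0 := by rintro rfl; simp at hζ
  have hζ0 : ζ ≠ 0 := by rintro rfl; simp at hζ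
  refine ⟨(0 * ζ + x) / (y * ζ + 0), ?_, ?_⟩
  · rw [OnePoint.smul_some_eq_ite]
    have h00 : mJ x y h 0 0 = 0 := rfl
    have h01 : mJ x y h 0 1 = x := rfl
    have h10 : mJ x y h 1 0 = y := rfl
    have h11 : mJ x y h 1 1 = 0 := rfl
    rw [h00, h01, h10, h11, if_neg (by simp [hy, hζ0])]
  · rw [add_zero, zero_mul, zero_add]
    field_simp
    linear_combination (1 : ℝ) * hxy

/-- positive points -/
def PX (x l : ℝ) : Set (OnePoint ℝ) := {p | ∃ ζ : ℝ, p = (ζ : OnePoint ℝ) ∧ 0 < l * ζ / x}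

/-- negative points -/
def PY (x l : ℝ) : Set (OnePoint ℝ) := {p | ∃ ζ : ℝ, p = (ζ : OnePoint ℝ) ∧ l * ζ / x < 0}

theorem J_maps {x y l : ℝ} (h : x * y ≠ 0) (hxy : x * y = -2 * l ^ 2) {p : OnePoint ℝ}
    (hp : p ∈ PX x l) : mJ x y h • p ∈ PY x l := by
  obtain ⟨ζ, rfl, hζ⟩ := hp
  obtain ⟨ζ', h1, h2⟩ := act_J h hxy hζ.ne'
  refine ⟨ζ', h1, ?_⟩
  rw [h2, neg_lt_zero]
  positivity

theorem U_maps {m : ℕ} (hm : 3 ≤ m) {x y : ℝ} (h : x * y ≠ 0)
    (hxy : x * y = -2 * (2 * Real.cos (Real.pi / m)) ^ 2) {p : OnePoint ℝ}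
    (hp : p ∈ PY x (2 * Real.cos (Real.pi / m))) (i : ℕ) (hi : 1 ≤ i) (him : i < m) :
    mU x y h ^ i • p ∈ PX x (2 * Real.cos (Real.pi / m)) := by
  obtain ⟨θ, hθ⟩ : ∃ θ : ℝ, θ = Real.pi / m := ⟨_, rfl⟩
  rw [← hθ] at hxy hp ⊢
  obtain ⟨l, hl⟩ : ∃ l : ℝ, l = 2 * Real.cos θ := ⟨_, rfl⟩
  rw [← hl] at hxy hp ⊢
  have hl0 : l ≠ 0 := by
    rintro rfl
    apply h
    rw [hxy]
    norm_num
  obtain ⟨ζ, rfl, hζ⟩ := hp
  have hm0 : (0 : ℝ) < m := by positivity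
  have hθ0 : 0 < θ := by rw [hθ]; positivity
  have hsin : ∀ j : ℕ, 1 ≤ j → j < m → 0 < Real.sin (j * θ) := by
    intro j hj hjm
    have hj0 : (0 : ℝ) < j := by exact_mod_cast hj
    refine Real.sin_pos_of_pos_of_lt_pi (by positivity) ?_
    rw [hθ]
    have h1 : (j : ℝ) < m := by exact_mod_cast hjm
    rw [mul_div_assoc', div_lt_iff₀ hm0, mul_comm]
    exact mul_lt_mul_of_pos_left h1 Real.pi_pos
  have hrec : ∀ j : ℕ, l * Real.sin ((j + 1 : ℕ) * θ) - Real.sin (j * θ) = Real.sin ((j + 2 : ℕ) * θ) := by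
    intro j
    have e1 : ((j + 2 : ℕ) : ℝ) * θ = (j + 1 : ℕ) * θ + θ := by push_cast; ring
    have e2 : (j : ℝ) * θ = (j + 1 : ℕ) * θ - θ := by push_cast; ring
    rw [e1, e2, Real.sin_add, Real.sin_sub, hl]
    ring
  have key : ∀ i : ℕ, 1 ≤ i → i < m → ∃ ζ' : ℝ, mU x y h ^ i • (ζ : OnePoint ℝ) = (ζ' : OnePoint ℝ) ∧
      Real.sin ((i + 1 : ℕ) * θ) < (l * ζ' / x) * Real.sin (i * θ) := by
    intro i hi
    induction i, hi using Nat.le_induction with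
    | base =>
      intro h1m
      obtain ⟨ζ', h1, h2⟩ := act_U h hxy hζ.ne
      refine ⟨ζ', by rw [pow_one]; exact h1, ?_⟩
      have h3 := hsin 1 le_rfl h1m
      have h4 : Real.sin ((1 + 1 : ℕ) * θ) = l * Real.sin ((1 : ℕ) * θ) := by
        have := hrec 0
        simp only [Nat.cast_zero, zero_mul, Real.sin_zero, sub_zero] at this
        rw [← this]
      rw [h2, h4]
      refine mul_lt_mul_of_pos_right ?_ h3
      have : 1 / (l * ζ / x) < 0 := one_div_neg.2 hζ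
      linarith
    | succ j hj ih =>
      intro hjm
      obtain ⟨ζ', h1, h2⟩ := ih (by omega)
      have h3 := hsin j hj (by omega)
      have h4 := hsin (j + 1) (by omega) hjm
      have hpos : 0 < l * ζ' / x := by
        by_contra hneg
        push Not at hneg
        have : (l * ζ' / x) * Real.sin (j * θ) ≤ 0 := mul_nonpos_of_nonpos_of_nonneg hneg h3.le
        linarith
      obtain ⟨ζ'', h5, h6⟩ := act_U h hxy hpos.ne'
      refine ⟨ζ'', by rw [pow_succ', mul_smul, h1, h5], ?_⟩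
      rw [h6]
      have h7 := hrec j
      have h8 : Real.sin ((j + 1 + 1 : ℕ) * θ) = l * Real.sin ((j + 1 : ℕ) * θ) - Real.sin (j * θ) := h7.symm
      rw [h8, sub_mul]
      have h9 : 1 / (l * ζ' / x) * Real.sin ((j + 1 : ℕ) * θ) < Real.sin (j * θ) := by
        rw [one_div, inv_mul_lt_iff₀ hpos]
        exact h2
      linarith
  obtain ⟨ζ', h1, h2⟩ := key i hi him
  refine ⟨ζ', h1, ?_⟩
  have h3 := hsin i hi him
  have h4 : 0 ≤ Real.sin ((i + 1 : ℕ) * θ) := by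
    rcases Nat.lt_or_ge (i + 1) m with h5 | h5
    · exact (hsin (i + 1) (by omega) h5).le
    · have h6 : i + 1 = m := by omega
      rw [h6, hθ]
      have : (m : ℝ) * (Real.pi / m) = Real.pi := by field_simp
      rw [this, Real.sin_pi]
  by_contra hneg
  push Not at hneg
  have : (l * ζ' / x) * Real.sin (i * θ) ≤ 0 := mul_nonpos_of_nonpos_of_nonneg hneg h3.le
  linarith

end Pool.Agent.U68.AR
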