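import Pool.Agent.U68.AR.Dih

/-!
# Rank one perturbations of the identity, and ping-pong
-/

set_option autoImplicit false

namespace Pool.Agent.U68.AR

section basic

variable {S : Type} [Fintype S] [DecidableEq S] {F : Type} [Field F] [CharZero F]

/-- the matrix whose row `s` is `c s`, with all other rows zero -/
def Em (c : S → S → F) (s : S) : Matrix S S F := Matrix.of fun i j => if i = s then c s j else 0

omit [Fintype S] [CharZero F] in
theorem Em_apply (c : S → S → F) (s i j : S) : Em c s i j = if i = s then c s j else 0 := rfl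

omit [CharZero F] in
theorem Em_sq (c : S → S → F) (s : S) (h : c s s = 1) : Em c s * Em c s = Em c s := by
  ext i j
  rw [Matrix.mul_apply, Finset.sum_eq_single s]
  · rw [Em_apply, Em_apply, if_pos rfl, Em_apply]
    split_ifs with h1
    · rw [h, one_mul]
    · rw [zero_mul]
  · intro b _ hb
    rw [Em_apply c s b j, if_neg hb, mul_zero]
  · intro h1
    exact absurd (Finset.mem_univ s) h1

/-- the generator of the representation -/
def Tu (c : S → S → F) (hc : ∀ s, c s s = 1) (s : S) : GL S F where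
  val := 1 + Em c s
  inv := 1 - (1 / 2 : F) • Em c s
  val_inv := by
    have h2 : (2 : F) ≠ 0 := two_ne_zero
    rw [mul_sub, mul_one, mul_smul_comm, add_mul, one_mul, Em_sq c s (hc s), ← two_smul F (Em c s),
      smul_smul, one_div, inv_mul_cancel₀ h2, one_smul]
    abel
  inv_val := by
    have h2 : (2 : F) ≠ 0 := two_ne_zero
    rw [sub_mul, one_mul, smul_mul_assoc, mul_add, mul_one, Em_sq c s (hc s), ← two_smul F (Em c s),
      smul_smul, one_div, inv_mul_cancel₀ h2, one_smul]
    abel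

theorem coe_Tu (c : S → S → F) (hc : ∀ s, c s s = 1) (s : S) :
    (Tu c hc s : Matrix S S F) = 1 + Em c s := rfl

theorem coe_Tu_inv (c : S → S → F) (hc : ∀ s, c s s = 1) (s : S) :
    (((Tu c hc s)⁻¹ : GL S F) : Matrix S S F) = 1 - (1 / 2 : F) • Em c s := rfl

theorem Tu_zpow (c : S → S → F) (hc : ∀ s, c s s = 1) (s : S) (n : ℤ) :
    ((Tu c hc s ^ n : GL S F) : Matrix S S F) = 1 + ((2 : F) ^ n - 1) • Em c s := by
  have h2 : (2 : F) ≠ 0 := two_ne_zero
  induction n using Int.induction_on with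
  | zero => simp
  | succ n ih =>
    rw [zpow_add_one, Units.val_mul, ih, coe_Tu, add_mul, one_mul, smul_mul_assoc, mul_add, mul_one,
      Em_sq c s (hc s), zpow_add_one₀ h2, smul_add, add_assoc]
    congr 1
    nth_rewrite 1 [show Em c s = (1 : F) • Em c s from (one_smul _ _).symm]
    rw [← add_smul, ← add_smul]
    congr 1
    ring
  | pred n ih =>
    rw [zpow_sub_one, Units.val_mul, ih, coe_Tu_inv, add_mul, one_mul, smul_mul_assoc, mul_sub,
      mul_one, mul_smul_comm, Em_sq c s (hc s), zpow_sub_one₀ h2, smul_sub, smul_smul]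
    rw [sub_add, sub_eq_add_neg (1 : Matrix S S F)]
    congr 1
    rw [← sub_smul, ← sub_smul, ← neg_smul]
    congr 1
    field_simp
    ring

/-- the inclusion of coordinates -/
def Pm (F : Type) [Field F] {ι : Type} (e : ι → S) : Matrix S ι F :=
  Matrix.of fun s i => if s = e i then 1 else 0

variable {ι : Type} [Fintype ι] [DecidableEq ι]

omit [Fintype S] [CharZero F] [Fintype ι] [DecidableEq ι] in
theorem Pm_apply (e : ι → S) (s : S) (i : ι) : Pm F e s i = if s = e i then 1 else 0 := rfl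

omit [CharZero F] in
theorem Em_mul_Pm (c : S → S → F) (e : ι → S) (i : ι) :
    Em c (e i) * Pm F e = Pm F e * Em (fun i j => c (e i) (e j)) i := by
  ext s j
  rw [Matrix.mul_apply, Matrix.mul_apply, Finset.sum_eq_single (e j), Finset.sum_eq_single i]
  · rw [Em_apply, Pm_apply, Pm_apply, Em_apply, if_pos rfl, if_pos rfl, mul_one]
    split_ifs
    · rw [one_mul]
    · rw [zero_mul]
  · intro b _ hb
    rw [Em_apply, if_neg hb, mul_zero]
  · intro h1
    exact absurd (Finset.mem_univ i) h1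
  · intro b _ hb
    rw [Pm_apply, if_neg hb, mul_zero]
  · intro h1
    exact absurd (Finset.mem_univ (e j)) h1

omit [CharZero F] [Fintype ι] [DecidableEq ι] in
theorem Em_mul_Pm_zero (c : S → S → F) (e : ι → S) (r : S) (h : ∀ i, c r (e i) = 0) :
    Em c r * Pm F e = 0 := by
  ext s j
  rw [Matrix.mul_apply, Finset.sum_eq_single (e j)]
  · rw [Em_apply, h]
    simp
  · intro b _ hb
    rw [Pm_apply, if_neg hb, mul_zero]
  · intro h1
    exact absurd (Finset.mem_univ (e j)) h1

omit [CharZero F] [Fintype ι] in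
theorem Pt_mul_Pm (e : ι → S) (he : Function.Injective e) :
    (Pm F e).transpose * Pm F e = 1 := by
  ext i j
  rw [Matrix.mul_apply, Finset.sum_eq_single (e j)]
  · rw [Matrix.transpose_apply, Pm_apply, Pm_apply, if_pos rfl, mul_one, Matrix.one_apply]
    by_cases h : i = j
    · rw [if_pos h, if_pos (by rw [h])]
    · rw [if_neg h, if_neg fun h1 => h (he h1).symm]
  · intro b _ hb
    rw [Pm_apply e b j, if_neg hb, mul_zero]
  · intro h1
    exact absurd (Finset.mem_univ (e j)) h1

theorem Tu_mul_Pm (c : S → S → F) (hc : ∀ s, c s s = 1) (e : ι → S) (i : ι) :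
    (Tu c hc (e i) : Matrix S S F) * Pm F e =
      Pm F e * (Tu (fun i j => c (e i) (e j)) (fun i => hc (e i)) i : Matrix ι ι F) := by
  rw [coe_Tu, coe_Tu, Matrix.add_mul, Matrix.mul_add, Matrix.one_mul, Matrix.mul_one, Em_mul_Pm]

theorem Tu_inv_mul_Pm (c : S → S → F) (hc : ∀ s, c s s = 1) (e : ι → S) (i : ι) :
    (((Tu c hc (e i))⁻¹ : GL S F) : Matrix S S F) * Pm F e =
      Pm F e * (((Tu (fun i j => c (e i) (e j)) (fun i => hc (e i)) i)⁻¹ : GL ι F) :
        Matrix ι ι F) := by
  rw [coe_Tu_inv, coe_Tu_inv, Matrix.sub_mul, Matrix.mul_sub, Matrix.one_mul, Matrix.mul_one,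
    Matrix.smul_mul, Matrix.mul_smul, Em_mul_Pm]

/-- **blocks** -/
theorem exists_block (c : S → S → F) (hc : ∀ s, c s s = 1) (e : ι → S) (he : Function.Injective e)
    {W : Type} [Group W] (a : ι → W) (hgen : Subgroup.closure (Set.range a) = ⊤)
    (R : W →* GL S F) (hR : ∀ i, R (a i) = Tu c hc (e i)) :
    ∃ Q : W →* GL ι F, (∀ i, Q (a i) = Tu (fun i j => c (e i) (e j)) (fun i => hc (e i)) i) ∧
      ∀ w, (R w : Matrix S S F) * Pm F e = Pm F e * (Q w : Matrix ι ι F) := by
  have h1 : ∀ w : W, (∃ M : Matrix ι ι F, (R w : Matrix S S F) * Pm F e = Pm F e * M) ∧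
      ∃ M : Matrix ι ι F, (R w⁻¹ : Matrix S S F) * Pm F e = Pm F e * M := by
    intro w
    have hw : w ∈ Subgroup.closure (Set.range a) := by rw [hgen]; trivial
    induction hw using Subgroup.closure_induction with
    | mem x hx =>
      obtain ⟨i, rfl⟩ := hx
      refine ⟨⟨(Tu (fun i j => c (e i) (e j)) (fun i => hc (e i)) i : Matrix ι ι F), ?_⟩,
        ⟨(((Tu (fun i j => c (e i) (e j)) (fun i => hc (e i)) i)⁻¹ : GL ι F) : Matrix ι ι F), ?_⟩⟩
      · rw [hR]; exact Tu_mul_Pm c hc e i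
      · rw [map_inv, hR]; exact Tu_inv_mul_Pm c hc e i
    | one =>
      refine ⟨⟨1, by rw [map_one, Units.val_one, Matrix.one_mul, Matrix.mul_one]⟩,
        ⟨1, by rw [inv_one, map_one, Units.val_one, Matrix.one_mul, Matrix.mul_one]⟩⟩
    | mul x y _ _ hx hy =>
      obtain ⟨⟨M1, h1⟩, M2, h2⟩ := hx
      obtain ⟨⟨N1, h3⟩, N2, h4⟩ := hy
      refine ⟨⟨M1 * N1, ?_⟩, ⟨N2 * M2, ?_⟩⟩
      · rw [map_mul, Units.val_mul, Matrix.mul_assoc, h3, ← Matrix.mul_assoc, h1, Matrix.mul_assoc]
      · rw [mul_inv_rev, map_mul, Units.val_mul, Matrix.mul_assoc, h2, ← Matrix.mul_assoc, h4,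
          Matrix.mul_assoc]
    | inv x _ hx =>
      refine ⟨hx.2, ?_⟩
      rw [inv_inv]
      exact hx.1
  have h2 : ∀ w : W, (R w : Matrix S S F) * Pm F e =
      Pm F e * ((Pm F e).transpose * (R w : Matrix S S F) * Pm F e) := by
    intro w
    obtain ⟨M, hM⟩ := (h1 w).1
    rw [Matrix.mul_assoc, hM, ← Matrix.mul_assoc (Pm F e).transpose, Pt_mul_Pm e he, Matrix.one_mul]
  let Q0 : W →* Matrix ι ι F :=
    { toFun := fun w => (Pm F e).transpose * (R w : Matrix S S F) * Pm F e
      map_one' := by rw [map_one, Units.val_one, Matrix.mul_one, Pt_mul_Pm e he]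
      map_mul' := fun x y => by
        obtain ⟨M, hM⟩ := (h1 y).1
        have h3 : (Pm F e).transpose * (R y : Matrix S S F) * Pm F e = M := by
          rw [Matrix.mul_assoc, hM, ← Matrix.mul_assoc, Pt_mul_Pm e he, Matrix.one_mul]
        rw [h3, map_mul, Units.val_mul, Matrix.mul_assoc, Matrix.mul_assoc (R x : Matrix S S F), hM]
        simp only [Matrix.mul_assoc] }
  refine ⟨Q0.toHomUnits, fun i => ?_, fun w => h2 w⟩
  apply Units.ext
  show (Pm F e).transpose * (R (a i) : Matrix S S F) * Pm F e = _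
  rw [hR, Matrix.mul_assoc, Tu_mul_Pm, ← Matrix.mul_assoc, Pt_mul_Pm e he, Matrix.one_mul]

end basic

/-! ### ping-pong -/

section pp

variable {ι : Type} [Fintype ι] [DecidableEq ι]

/-- the action on vectors -/
def vact (ι : Type) [Fintype ι] [DecidableEq ι] : GL ι ℝ →* Equiv.Perm (ι → ℝ) where
  toFun g :=
    { toFun := fun v => Matrix.mulVec (g : Matrix ι ι ℝ) v
      invFun := fun v => Matrix.mulVec ((g⁻¹ : GL ι ℝ) : Matrix ι ι ℝ) v
      left_inv := fun v => by
        show Matrix.mulVec ((g⁻¹ : GL ι ℝ) : Matrix ι ι ℝ) (Matrix.mulVec (g : Matrix ι ι ℝ) v) = v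
        rw [Matrix.mulVec_mulVec, ← Units.val_mul, inv_mul_cancel, Units.val_one, Matrix.one_mulVec]
      right_inv := fun v => by
        show Matrix.mulVec (g : Matrix ι ι ℝ) (Matrix.mulVec ((g⁻¹ : GL ι ℝ) : Matrix ι ι ℝ) v) = v
        rw [Matrix.mulVec_mulVec, ← Units.val_mul, mul_inv_cancel, Units.val_one, Matrix.one_mulVec] }
  map_one' := Equiv.ext fun v => by
    show Matrix.mulVec ((1 : GL ι ℝ) : Matrix ι ι ℝ) v = v
    rw [Units.val_one, Matrix.one_mulVec]
  map_mul' g h := Equiv.ext fun v => by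
    show Matrix.mulVec ((g * h : GL ι ℝ) : Matrix ι ι ℝ) v = Matrix.mulVec _ (Matrix.mulVec _ v)
    rw [Units.val_mul, Matrix.mulVec_mulVec]

theorem vact_apply (g : GL ι ℝ) (v : ι → ℝ) : vact ι g v = Matrix.mulVec (g : Matrix ι ι ℝ) v := rfl

/-- vectors with a large coordinate -/
def XB (i : ι) : Set (ι → ℝ) := {v | 4 * ∑ j ∈ Finset.univ.erase i, |v j| < |v i|}

omit [Fintype ι] in
theorem abs_le_sum_erase [Fintype ι] {i j : ι} (h : i ≠ j) (v : ι → ℝ) :
    |v j| ≤ ∑ k ∈ Finset.univ.erase i, |v k| :=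
  Finset.single_le_sum (f := fun k => |v k|) (fun _ _ => abs_nonneg _)
    (Finset.mem_erase.2 ⟨h.symm, Finset.mem_univ _⟩)

theorem two_zpow_sub {n : ℤ} (hn : n ≠ 0) : (1 : ℝ) / 2 ≤ |(2 : ℝ) ^ n - 1| := by
  rcases lt_or_gt_of_ne hn with h | h
  · have h1 : (2 : ℝ) ^ n ≤ (2 : ℝ) ^ (-1 : ℤ) := zpow_le_zpow_right₀ (by norm_num) (by omega)
    have h2 : (2 : ℝ) ^ (-1 : ℤ) = 1 / 2 := by norm_num
    rw [h2] at h1
    rw [abs_of_nonpos (by linarith)]
    linarith
  · have h1 : (2 : ℝ) ^ (1 : ℤ) ≤ (2 : ℝ) ^ n := zpow_le_zpow_right₀ (by norm_num) (by omega)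
    rw [zpow_one] at h1
    rw [abs_of_nonneg (by linarith)]
    linarith

theorem pp_maps (c : ι → ι → ℝ) (hc : ∀ s, c s s = 1) (h16 : ∀ i j, i ≠ j → c i j = 16)
    {i j : ι} (hij : i ≠ j) {n : ℤ} (hn : n ≠ 0) {v : ι → ℝ} (hv : v ∈ XB j) :
    vact ι (Tu c hc i ^ n) v ∈ XB i := by
  have hE : ∀ k, Matrix.mulVec (Em c i) v k = if k = i then ∑ l, c i l * v l else 0 := by
    intro k
    show ∑ l, Em c i k l * v l = _
    split_ifs with h
    · subst h
      refine Finset.sum_congr rfl fun l _ => ?_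
      rw [Em_apply, if_pos rfl]
    · refine Finset.sum_eq_zero fun l _ => ?_
      rw [Em_apply, if_neg h, zero_mul]
  have hw : ∀ k, vact ι (Tu c hc i ^ n) v k =
      v k + ((2 : ℝ) ^ n - 1) * (if k = i then ∑ l, c i l * v l else 0) := by
    intro k
    rw [vact_apply, Tu_zpow, Matrix.add_mulVec, Matrix.one_mulVec, Matrix.smul_mulVec, Pi.add_apply,
      Pi.smul_apply, hE, smul_eq_mul]
  -- sizes
  obtain ⟨s, hs⟩ : ∃ s : ℝ, s = ∑ k ∈ Finset.univ.erase j, |v k| := ⟨_, rfl⟩
  have hs4 : 4 * s < |v j| := by rw [hs]; exact hv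
  have hs0 : 0 ≤ s := by rw [hs]; exact Finset.sum_nonneg fun _ _ => abs_nonneg _
  have hvi : |v i| ≤ s := by rw [hs]; exact abs_le_sum_erase hij.symm v
  -- the value of the functional
  have hphi : 16 * |v j| - 16 * s ≤ |∑ l, c i l * v l| := by
    have h1 : ∑ l, c i l * v l = 16 * v j + ∑ l ∈ Finset.univ.erase j, c i l * v l := by
      rw [← Finset.add_sum_erase Finset.univ _ (Finset.mem_univ j), h16 i j hij]
    have h2 : |∑ l ∈ Finset.univ.erase j, c i l * v l| ≤ 16 * s := by
      refine (Finset.abs_sum_le_sum_abs _ _).trans ?_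
      rw [hs, Finset.mul_sum]
      refine Finset.sum_le_sum fun l _ => ?_
      rw [abs_mul]
      refine mul_le_mul_of_nonneg_right ?_ (abs_nonneg _)
      by_cases hl : l = i
      · rw [hl, hc]; norm_num
      · rw [h16 i l (Ne.symm hl)]; norm_num
    rw [h1]
    have h3 := abs_sub_abs_le_abs_sub (16 * v j) (-∑ l ∈ Finset.univ.erase j, c i l * v l)
    rw [abs_neg, sub_neg_eq_add, abs_mul, abs_of_pos (by norm_num : (0 : ℝ) < 16)] at h3
    linarith
  have hi : 8 * |v j| - 8 * s - s ≤ |vact ι (Tu c hc i ^ n) v i| := by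
    rw [hw, if_pos rfl]
    have h1 := abs_sub_abs_le_abs_sub (((2 : ℝ) ^ n - 1) * ∑ l, c i l * v l) (-v i)
    rw [abs_neg, sub_neg_eq_add, abs_mul, add_comm _ (v i)] at h1
    have h2 := two_zpow_sub hn
    have h3 : (1 / 2 : ℝ) * (16 * |v j| - 16 * s) ≤ |(2 : ℝ) ^ n - 1| * |∑ l, c i l * v l| := by
      refine mul_le_mul h2 hphi (by linarith) (abs_nonneg _)
    linarith
  have hrest : ∑ k ∈ Finset.univ.erase i, |vact ι (Tu c hc i ^ n) v k| ≤ |v j| + s := by
    have h1 : ∑ k ∈ Finset.univ.erase i, |vact ι (Tu c hc i ^ n) v k| =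
        ∑ k ∈ Finset.univ.erase i, |v k| := by
      refine Finset.sum_congr rfl fun k hk => ?_
      rw [hw, if_neg (Finset.ne_of_mem_erase hk), mul_zero, add_zero]
    rw [h1]
    have h2 : ∑ k ∈ Finset.univ.erase i, |v k| ≤ ∑ k, |v k| :=
      Finset.sum_le_sum_of_subset_of_nonneg (Finset.erase_subset _ _) fun _ _ _ => abs_nonneg _
    rw [← Finset.add_sum_erase Finset.univ _ (Finset.mem_univ j), ← hs] at h2
    exact h2
  show 4 * ∑ k ∈ Finset.univ.erase i, |vact ι (Tu c hc i ^ n) v k| < |vact ι (Tu c hc i ^ n) v i|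
  linarith

theorem vact_injective : Function.Injective (vact ι) := by
  intro g h hgh
  apply Units.ext
  apply Matrix.toLin'.injective
  refine LinearMap.ext fun v => ?_
  rw [Matrix.toLin'_apply, Matrix.toLin'_apply]
  exact DFunLike.congr_fun hgh v

/-- **faithful representation of groups generated by elements without relations** -/
theorem free_inj (c : ι → ι → ℝ) (hc : ∀ s, c s s = 1) (h16 : ∀ i j, i ≠ j → c i j = 16)
    {W : Type} [Group W] (a : ι → W) (hgen : Subgroup.closure (Set.range a) = ⊤)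
    (Q : W →* GL ι ℝ) (hQ : ∀ i, Q (a i) = Tu c hc i) : Function.Injective Q := by
  classical
  rcases subsingleton_or_nontrivial ι with hι | hι
  · rw [injective_iff_map_eq_one]
    intro w hw
    rcases isEmpty_or_nonempty ι with h0 | ⟨⟨i⟩⟩
    · have h1 : w ∈ Subgroup.closure (Set.range a) := by rw [hgen]; trivial
      rw [Set.range_eq_empty, Subgroup.closure_empty] at h1
      exact h1
    · have h1 : w ∈ Subgroup.closure (Set.range a) := by rw [hgen]; trivial
      have h2 : Set.range a = {a i} := by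
        ext x
        constructor
        · rintro ⟨j, rfl⟩
          rw [Subsingleton.elim j i]
          rfl
        · rintro rfl
          exact ⟨i, rfl⟩
      rw [h2, ← Subgroup.zpowers_eq_closure] at h1
      obtain ⟨n, rfl⟩ := Subgroup.mem_zpowers_iff.1 h1
      have h3 : ((Tu c hc i ^ n : GL ι ℝ) : Matrix ι ι ℝ) i i = 1 := by
        rw [← hQ, ← map_zpow, hw, Units.val_one, Matrix.one_apply_eq]
      rw [Tu_zpow, Matrix.add_apply, Matrix.smul_apply, Matrix.one_apply_eq, Em_apply, if_pos rfl, hc,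
        smul_eq_mul, mul_one] at h3
      have h4 : (2 : ℝ) ^ n = 1 := by linarith
      have h5 : n = 0 := by
        by_contra hne
        exact hne ((zpow_eq_one_iff_right₀ (by norm_num : (0 : ℝ) ≤ 2) (by norm_num : (2 : ℝ) ≠ 1)).1 h4)
      rw [h5, zpow_zero]
  · obtain ⟨f, hf⟩ : ∃ f : ∀ _ : ι, Multiplicative ℤ →* W, f = fun i => zpowersHom W (a i) := ⟨_, rfl⟩
    have hfa : ∀ i (n : Multiplicative ℤ), f i n = a i ^ n.toAdd := by
      intro i n
      rw [hf]
      rfl
    obtain ⟨ι', hι'⟩ : ∃ ι' : Monoid.CoprodI (fun _ : ι => Multiplicative ℤ) →* W,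
        ι' = Monoid.CoprodI.lift f := ⟨_, rfl⟩
    have hsurj : Function.Surjective ι' := by
      rw [← MonoidHom.range_eq_top, eq_top_iff, ← hgen, Subgroup.closure_le]
      rintro _ ⟨i, rfl⟩
      refine ⟨Monoid.CoprodI.of (M := fun _ : ι => Multiplicative ℤ) (i := i) (Multiplicative.ofAdd 1), ?_⟩
      rw [hι', Monoid.CoprodI.lift_of, hfa, toAdd_ofAdd, zpow_one]
    have hinj : Function.Injective (((vact ι).comp Q).comp ι') := by
      have h1 : ((vact ι).comp Q).comp ι' = Monoid.CoprodI.lift fun i => ((vact ι).comp Q).comp (f i) := by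
        refine Monoid.CoprodI.ext_hom _ _ fun i => MonoidHom.ext fun u => ?_
        simp only [MonoidHom.comp_apply, hι', Monoid.CoprodI.lift_of]
      rw [h1]
      refine Monoid.CoprodI.lift_injective_of_ping_pong (α := ι → ℝ) _
        (Or.inr ⟨Classical.arbitrary ι, ?_⟩) XB ?_ ?_ ?_
      · have : Cardinal.mk (Multiplicative ℤ) = Cardinal.aleph0 := by
          rw [Cardinal.mk_eq_aleph0]
        rw [this]
        exact_mod_cast Cardinal.natCast_le_aleph0
      · intro i
        refine ⟨fun j => if j = i then 1 else 0, ?_⟩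
        show 4 * ∑ j ∈ Finset.univ.erase i, |if j = i then (1 : ℝ) else 0| < |if i = i then (1 : ℝ) else 0|
        rw [Finset.sum_eq_zero]
        · simp
        · intro j hj
          rw [if_neg (Finset.ne_of_mem_erase hj), abs_zero]
      · intro i j hij
        show Disjoint (XB i) (XB j)
        rw [Set.disjoint_left]
        intro v hi hj
        have h1 := abs_le_sum_erase hij v
        have h2 := abs_le_sum_erase hij.symm v
        have h3 : 4 * ∑ k ∈ Finset.univ.erase i, |v k| < |v i| := hi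
        have h4 : 4 * ∑ k ∈ Finset.univ.erase j, |v k| < |v j| := hj
        have h5 := abs_nonneg (v i)
        have h6 := abs_nonneg (v j)
        linarith
      · intro i j hij n hn
        rintro _ ⟨v, hv, rfl⟩
        show vact ι (Q (f i n)) v ∈ XB i
        rw [hfa, map_zpow, hQ]
        refine pp_maps c hc h16 hij ?_ hv
        intro h0
        exact hn (by rw [← ofAdd_toAdd n, h0]; rfl)
    rw [injective_iff_map_eq_one]
    intro w hw
    obtain ⟨p, rfl⟩ := hsurj w
    have h3 : (((vact ι).comp Q).comp ι') p = 1 := by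
      rw [MonoidHom.comp_apply, MonoidHom.comp_apply, hw, map_one]
    rw [hinj (h3.trans (map_one _).symm), map_one]

end pp

end Pool.Agent.U68.AR
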