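import Pool.Agent.U68.AR.Glue

/-!
# Separators
-/

set_option autoImplicit false

namespace Pool.Agent.U68.AR

open Pool.Agent.Y110.FJ Pool.Agent.Y462.SS Pool.Agent.Helper705_SA

variable {C : ∀ (G : Type) [Group G], Prop}

section

variable {S : Type}

/-- `φ` is a folding of `T` onto `Y`: a retraction `T → Y ∪ {1}` (the value `1` is `none`) such that
the label of the images divides the label, and the labels between elements which are mapped to `1` and
elements which are not are even or infinite (the label infinity is `0`, which is divisible by all) -/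
def Folding (M : S → S → ℕ) (T Y : Set S) (φ : S → Option S) : Prop :=
  (∀ y ∈ Y, φ y = some y) ∧ (∀ s ∈ T, ∀ a, φ s = some a → a ∈ Y) ∧
    (∀ s ∈ T, ∀ t ∈ T, ∀ a b, φ s = some a → φ t = some b → M a b ∣ M s t) ∧
    (∀ s ∈ T, ∀ t ∈ T, ∀ b, φ s = none → φ t = some b → Even (M s t))

/-- a good piece of the separator `Z`: at most two elements, or all labels inside are infinite
(label `0`), or there is a folding of `T` onto the piece which maps the rest of `Z` to `1` -/
def Piece (M : S → S → ℕ) (T Z Y : Set S) : Prop :=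
  (∃ s t, Y = {s, t}) ∨ (∀ s ∈ Y, ∀ t ∈ Y, s ≠ t → M s t = 0) ∨
    (∃ φ, Folding M T Y φ ∧ ∀ s ∈ Z, s ∉ Y → φ s = none)

/-- unions of commuting good pieces -/
inductive Sep (M : S → S → ℕ) (T Z : Set S) : Set S → Prop
  | empty : Sep M T Z ∅
  | add {X Y : Set S} : Sep M T Z X → Piece M T Z Y → (∀ x ∈ X, ∀ y ∈ Y, M x y = 2) →
      Sep M T Z (X ∪ Y)

variable {M : S → S → ℕ}

theorem bk_mono {T X Y : Set S} (h : X ⊆ Y) : BK M T X ≤ BK M T Y :=
  Subgroup.closure_mono (Set.image_mono h)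

theorem map_bk {T T' Y : Set S} (h : T ⊆ T') (hY : Y ⊆ T) {w : AK M T} (hw : w ∈ BK M T Y) :
    inc h w ∈ BK M T' Y := by
  rw [← range_inc hY] at hw
  obtain ⟨x, rfl⟩ := hw
  rw [inc_inc, ← range_inc (hY.trans h)]
  exact ⟨x, rfl⟩

variable [Fintype S] [DecidableEq S]

/-- the property of the homomorphism of a piece -/
def Kills {P : Type} [Group P] (M : S → S → ℕ) (T Z Y : Set S) (f : AK M T →* P) : Prop :=
  ∀ (T0 : Set S) (h : T0 ⊆ T), T0 ⊆ Z → Y ⊆ T0 → (∀ x ∈ T0, x ∉ Y → ∀ y ∈ Y, M x y = 2) →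
    ∀ u ∈ BK M T0 Y, ∀ v ∈ BK M T0 (T0 \ Y), f (inc h (u * v)) = 1 → u = 1

theorem alt_add {G : Type} [Group G] (x y : G) (m n : ℕ) :
    alt x y (m + n) = alt x y m * (if Even m then alt x y n else alt y x n) := by
  induction m generalizing x y with
  | zero => rw [Nat.zero_add, alt_zero, one_mul, if_pos (by simp)]
  | succ m ih =>
    rw [Nat.add_right_comm, alt_succ, alt_succ, ih, mul_assoc]
    congr 2
    by_cases h : Even m
    · rw [if_pos h, if_neg (by rw [Nat.even_add_one]; exact fun h1 => h1 h)]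
    · rw [if_neg h, if_pos (by rw [Nat.even_add_one]; exact h)]

theorem alt_dvd {G : Type} [Group G] {x y : G} {m n : ℕ} (h : alt x y m = alt y x m) (hmn : m ∣ n) :
    alt x y n = alt y x n := by
  obtain ⟨k, rfl⟩ := hmn
  induction k with
  | zero => rfl
  | succ k ih =>
    rw [Nat.mul_succ, Nat.add_comm, alt_add, alt_add, h]
    split_ifs
    · rw [ih]
    · rw [ih]

omit [Fintype S] [DecidableEq S] in
theorem exists_fold {T Y : Set S} {φ : S → Option S} (hφ : Folding M T Y φ)
    (hM : ∀ s t, M s t = M t s) (hY : Y ⊆ T) :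
    ∃ F : AK M T →* AK M Y, (∀ s ∈ Y, F (gen M T s) = gen M Y s) ∧
      ∀ s ∈ T, φ s = none → F (gen M T s) = 1 := by
  classical
  obtain ⟨h1, h2, h3, h4⟩ := hφ
  obtain ⟨g, hg⟩ : ∃ g : S → AK M Y, g = fun s => if s ∈ T then (φ s).elim 1 (gen M Y) else 1 := ⟨_, rfl⟩
  have hg1 : ∀ s ∈ T, ∀ a, φ s = some a → g s = gen M Y a := by
    intro s hs a ha
    rw [hg]
    show (if s ∈ T then (φ s).elim 1 (gen M Y) else 1) = _
    rw [if_pos hs, ha]
    rfl
  have hg0 : ∀ s ∈ T, φ s = none → g s = 1 := by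
    intro s hs ha
    rw [hg]
    show (if s ∈ T then (φ s).elim 1 (gen M Y) else 1) = _
    rw [if_pos hs, ha]
    rfl
  obtain ⟨F, hF⟩ := exists_lift (M := M) (T := T) g
    (fun s hs t ht => by
      rcases hs' : φ s with _ | a <;> rcases ht' : φ t with _ | b
      · rw [hg0 s hs hs', hg0 t ht ht']
      · rw [hg0 s hs hs', hg1 t ht b ht']
        obtain ⟨k, hk⟩ := h4 s hs t ht b hs' ht'
        rw [hk, ← two_mul, alt_one_left, alt_one_right]
      · rw [hg1 s hs a hs', hg0 t ht ht']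
        obtain ⟨k, hk⟩ := h4 t ht s hs a ht' hs'
        rw [hM, hk, ← two_mul, alt_one_left, alt_one_right]
      · rw [hg1 s hs a hs', hg1 t ht b ht']
        exact alt_dvd (gen_rel (h2 s hs a hs') (h2 t ht b ht')) (h3 s hs t ht a b hs' ht'))
    (fun s hs => by
      rw [hg]
      show (if s ∈ T then (φ s).elim 1 (gen M Y) else 1) = _
      rw [if_neg hs])
  exact ⟨F, fun s hs => by rw [hF, hg1 s (hY hs) s (h1 s hs)], fun s hs h0 => by rw [hF, hg0 s hs h0]⟩

omit [Fintype S] [DecidableEq S] in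
/-- foldings -/
theorem kills_fold (hM : ∀ s t, M s t = M t s) {T Z Y : Set S} (hY : Y ⊆ T) {φ : S → Option S}
    (hφ : Folding M T Y φ) (hZ : ∀ s ∈ Z, s ∉ Y → φ s = none) :
    ∃ f : AK M T →* AK M Y, Kills M T Z Y f ∧ ∀ w : AK M Y, f (inc hY w) = w := by
  obtain ⟨F, hF1, hF2⟩ := exists_fold hφ hM hY
  have h1 : ∀ w : AK M Y, F (inc hY w) = w := by
    have : F.comp (inc hY) = MonoidHom.id _ := ak_ext fun s hs => by
      rw [MonoidHom.comp_apply, inc_gen hY hs, hF1 s hs, MonoidHom.id_apply]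
    exact fun w => DFunLike.congr_fun this w
  refine ⟨F, ?_, h1⟩
  intro T0 h0 hT0Z hY0 _ u hu v hv huv
  have h2 : F (inc h0 v) = 1 := by
    have h3 : BK M T0 (T0 \ Y) ≤ (F.comp (inc h0)).ker := by
      rw [BK, Subgroup.closure_le]
      rintro _ ⟨s, hs, rfl⟩
      rw [SetLike.mem_coe, MonoidHom.mem_ker, MonoidHom.comp_apply, inc_gen h0 hs.1]
      exact hF2 s (h0 hs.1) (hZ s (hT0Z hs.1) hs.2)
    exact h3 hv
  rw [← range_inc hY0] at hu
  obtain ⟨w, rfl⟩ := hu
  rw [map_mul, map_mul, h2, mul_one, inc_inc] at huv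
  rw [h1] at huv
  rw [huv, map_one]

/-- linear pieces -/
theorem kills_lin (hC : ClosedE C) (hGL : ∀ n : ℕ, C (GL (Fin n) ℚ))
    (hM : ∀ s t, M s t = M t s) (h1 : ∀ s t, s ≠ t → M s t ≠ 1) (T : Set S) :
    ∃ (P : Type) (_ : Group P) (f : AK M T →* P), C P ∧
      ∀ Z Y : Set S, ((∃ s t, Y = {s, t}) ∨ (∀ s ∈ Y, ∀ t ∈ Y, s ≠ t → M s t = 0)) →
        Kills M T Z Y f := by
  classical
  obtain ⟨o, ho⟩ : ∃ o : S → ℕ, Function.Injective o :=
    ⟨fun s => (Fintype.equivFin S s : ℕ), fun a b h => (Fintype.equivFin S).injective (Fin.ext h)⟩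
  obtain ⟨P, _, f, R, hP, hR, hfR⟩ := exists_rep hC hGL ho hM h1 T
  refine ⟨P, inferInstance, f, hP, ?_⟩
  intro Z Y hY T0 h0 _ hY0 hcomm u hu v hv huv
  have hRuv : (R.comp (inc h0)) (u * v) = 1 := hfR _ huv
  have hR0 : ∀ s ∈ T0, (R.comp (inc h0)) (gen M T0 s) = Tu (cf o M) cf_self s := by
    intro s hs
    rw [MonoidHom.comp_apply, inc_gen h0 hs]
    exact hR s (h0 hs)
  have hfree : (∀ s ∈ Y, ∀ t ∈ Y, s ≠ t → M s t = 0) → u = 1 := by
    intro hYf
    have hr : Set.range (Subtype.val : Y → S) = Y := Subtype.range_coe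
    refine kill (T := T0) (o := o) (Subtype.val : Y → S) Subtype.val_injective (fun i => hY0 i.2)
      (fun x hx hx' i => hcomm x hx (fun h => hx' ⟨⟨x, h⟩, rfl⟩) i.1 i.2) (R.comp (inc h0)) hR0
      (inj_free _ Subtype.val_injective fun i j hij => hYf i.1 i.2 j.1 j.2 fun h => hij (Subtype.ext h))
      u (by rw [hr]; exact hu) v (by rw [hr]; exact hv) hRuv
  rcases hY with ⟨s, t, rfl⟩ | hY
  · rcases eq_or_ne s t with rfl | hst
    · apply hfree
      rintro a (rfl | ha) b (rfl | hb) hab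
      · exact absurd rfl hab
      · exact absurd (Set.mem_singleton_iff.1 hb).symm hab
      · exact absurd (Set.mem_singleton_iff.1 ha) hab
      · exact absurd ((Set.mem_singleton_iff.1 ha).trans (Set.mem_singleton_iff.1 hb).symm) hab
    · rcases eq_or_ne (M s t) 0 with hm0 | hm0
      · apply hfree
        rintro a (rfl | ha) b (rfl | hb) hab
        · exact absurd rfl hab
        · rw [Set.mem_singleton_iff.1 hb]; exact hm0
        · rw [Set.mem_singleton_iff.1 ha, hM]; exact hm0
        · exact absurd ((Set.mem_singleton_iff.1 ha).trans (Set.mem_singleton_iff.1 hb).symm) hab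
      · have hr : Set.range ![s, t] = {s, t} := by
          ext x
          constructor
          · rintro ⟨i, rfl⟩
            fin_cases i
            · exact Or.inl rfl
            · exact Or.inr rfl
          · rintro (rfl | rfl)
            · exact ⟨0, rfl⟩
            · exact ⟨1, rfl⟩
        have he : Function.Injective ![s, t] := by
          intro i j hij
          fin_cases i <;> fin_cases j
          · rfl
          · exact absurd hij hst
          · exact absurd hij hst.symm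
          · rfl
        have heY : ∀ i, ![s, t] i ∈ ({s, t} : Set S) := by
          intro i
          rw [← hr]
          exact ⟨i, rfl⟩
        exact kill (T := T0) (o := o) ![s, t] he (fun i => hY0 (heY i))
          (fun x hx hx' i => hcomm x hx (fun h => hx' (by rw [hr]; exact h)) _ (heY i))
          (R.comp (inc h0)) hR0 (inj_two ho hM h1 hst hm0) u (by rw [hr]; exact hu) v
          (by rw [hr]; exact hv) hRuv
  · exact hfree hY

/-- the homomorphism of a separator -/
theorem sep_hom (hC : ClosedE C) (hGL : ∀ n : ℕ, C (GL (Fin n) ℚ))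
    (hM : ∀ s t, M s t = M t s) (hd : ∀ s, M s s = 1) (h1 : ∀ s t, s ≠ t → M s t ≠ 1) {T Z : Set S}
    (hZT : Z ⊆ T) {X : Set S} (hX : Sep M T Z X) (hXZ : X ⊆ Z)
    (hev : ∀ Y : Set S, Y ⊆ Z → ∀ φ, Folding M T Y φ → C (AK M Y)) :
    ∃ (P : Type) (_ : Group P) (f : AK M T →* P), C P ∧
      ∀ (h : X ⊆ T) (w : AK M X), f (inc h w) = 1 → w = 1 := by
  induction hX with
  | empty =>
    refine ⟨Multiplicative ℤ, inferInstance, 1, hC.base.int, fun h w _ => ?_⟩
    have h2 : (⊥ : Subgroup (AK M (∅ : Set S))) = ⊤ := ak_gen fun s hs => absurd hs (by simp)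
    have h3 : w ∈ (⊥ : Subgroup (AK M (∅ : Set S))) := by rw [h2]; trivial
    exact h3
  | @add X Y hX hY hXY ih =>
    obtain ⟨P, _, f, hP, hf⟩ := ih (Set.subset_union_left.trans hXZ)
    have hYZ : Y ⊆ Z := Set.subset_union_right.trans hXZ
    have hdisj : ∀ x ∈ X, x ∉ Y := by
      intro x hx hy
      have := hXY x hx x hy
      rw [hd] at this
      omega
    obtain ⟨Q, _, g, hQ, hg⟩ : ∃ (Q : Type) (_ : Group Q) (g : AK M T →* Q), C Q ∧ Kills M T Z Y g := by
      obtain ⟨Q, _, g, hQ, hg⟩ := kills_lin hC hGL hM h1 T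
      rcases hY with hY | hY | ⟨φ, hφ, hφZ⟩
      · exact ⟨Q, inferInstance, g, hQ, hg Z Y (Or.inl hY)⟩
      · exact ⟨Q, inferInstance, g, hQ, hg Z Y (Or.inr hY)⟩
      · obtain ⟨F, hF, -⟩ := kills_fold hM (hYZ.trans hZT) hφ hφZ
        exact ⟨_, inferInstance, F, hev Y hYZ φ hφ, hF⟩
    refine ⟨P × Q, inferInstance, f.prod g, hC.base.prod _ _ hP hQ, fun h w hw => ?_⟩
    have hw1 : f (inc h w) = 1 := congrArg Prod.fst hw
    have hw2 : g (inc h w) = 1 := congrArg Prod.snd hw
    obtain ⟨u, hu, v, hv, rfl⟩ := mul_decomp hXY w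
    have hu1 : u = 1 := by
      refine hg (X ∪ Y) h hXZ Set.subset_union_right (fun x hx hx' y hy => hXY x (hx.resolve_right hx') y hy)
        u hu v (bk_mono (show X ⊆ (X ∪ Y) \ Y from fun x hx => ⟨Or.inl hx, hdisj x hx⟩) hv) hw2
    rw [hu1, one_mul] at hw1 ⊢
    rw [← range_inc (Set.subset_union_left : X ⊆ X ∪ Y)] at hv
    obtain ⟨x, rfl⟩ := hv
    rw [inc_inc] at hw1
    rw [hf _ x hw1, map_one]

/-- **gluing along separators** -/
theorem glue_sep (hC : ClosedE C) (hGL : ∀ n : ℕ, C (GL (Fin n) ℚ))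
    (hM : ∀ s t, M s t = M t s) (hd : ∀ s, M s s = 1) (h1 : ∀ s t, s ≠ t → M s t ≠ 1) {T1 T2 : Set S}
    (hinf : ∀ s ∈ T1, s ∉ T2 → ∀ t ∈ T2, t ∉ T1 → M s t = 0)
    (hsep : Sep M (T1 ∪ T2) (T1 ∩ T2) (T1 ∩ T2))
    (hT1 : C (AK M T1)) (hT2 : C (AK M T2)) : C (AK M (T1 ∪ T2)) := by
  obtain ⟨P, _, f, hP, hf⟩ := sep_hom hC hGL hM hd h1
    (Set.inter_subset_left.trans Set.subset_union_left) hsep subset_rfl fun Y hY φ hφ => by
      obtain ⟨F, -, hF⟩ := kills_fold (Z := Y) hM
        (hY.trans (Set.inter_subset_left.trans Set.subset_union_left)) hφ (fun s hs hs' => absurd hs hs')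
      refine hC.base.of_injective _ _ (inc (hY.trans Set.inter_subset_left)) ?_ hT1
      intro a b hab
      have hab' := congrArg (inc (Set.subset_union_left : T1 ⊆ T1 ∪ T2)) hab
      rw [inc_inc, inc_inc] at hab'
      rw [← hF a, ← hF b, hab']
  exact glue_hom hC (fun s hs hs' t ht ht' => ⟨hinf s hs hs' t ht ht', by
    rw [hM]; exact hinf s hs hs' t ht ht'⟩) P hP f (hf _) hT1 hT2

omit [Fintype S] [DecidableEq S] in
/-- even boundaries give foldings -/
theorem folding_even {T Y : Set S} (_hd : ∀ s, M s s = 1) (hM : ∀ s t, M s t = M t s)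
    (hev : ∀ s ∈ Y, ∀ t ∈ T, t ∉ Y → Even (M s t)) :
    ∃ φ, Folding M T Y φ ∧ ∀ s, s ∉ Y → φ s = none := by
  classical
  obtain ⟨φ, hφ⟩ : ∃ φ : S → Option S, φ = fun s => if s ∈ Y then some s else none := ⟨_, rfl⟩
  have h1 : ∀ s ∈ Y, φ s = some s := fun s hs => by rw [hφ]; exact if_pos hs
  have h0 : ∀ s, s ∉ Y → φ s = none := fun s hs => by rw [hφ]; exact if_neg hs
  have h2 : ∀ s a, φ s = some a → s ∈ Y ∧ a = s := by
    intro s a ha
    by_cases hs : s ∈ Y
    · rw [h1 s hs] at ha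
      exact ⟨hs, (Option.some.inj ha).symm⟩
    · rw [h0 s hs] at ha
      exact absurd ha (by simp)
  refine ⟨φ, ⟨h1, ?_, ?_, ?_⟩, h0⟩
  · intro s _ a ha
    rw [(h2 s a ha).2]
    exact (h2 s a ha).1
  · intro s _ t _ a b ha hb
    rw [(h2 s a ha).2, (h2 t b hb).2]
  · intro s hs t _ b hs' hb
    rw [hM]
    refine hev t (h2 t b hb).1 s hs fun h => ?_
    rw [h1 s h] at hs'
    exact absurd hs' (by simp)

omit [Fintype S] [DecidableEq S] in
/-- direct products -/
theorem join_mem (hC : ClosedE C) (hM : ∀ s t, M s t = M t s) (hd : ∀ s, M s s = 1) {T1 T2 : Set S}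
    (h2 : ∀ s ∈ T1, ∀ t ∈ T2, M s t = 2) (hT1 : C (AK M T1)) (hT2 : C (AK M T2)) :
    C (AK M (T1 ∪ T2)) := by
  have hdisj : ∀ x ∈ T1, x ∉ T2 := by
    intro x hx hy
    have := h2 x hx x hy
    rw [hd] at this
    omega
  obtain ⟨φ1, hφ1, hφ1'⟩ := folding_even (T := T1 ∪ T2) (Y := T1) hd hM
    (fun s hs t ht h => by rw [h2 s hs t (ht.resolve_left h)]; exact even_two)
  obtain ⟨φ2, hφ2, hφ2'⟩ := folding_even (T := T1 ∪ T2) (Y := T2) hd hM
    (fun s hs t ht h => by rw [hM, h2 t (ht.resolve_right h) s hs]; exact even_two)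
  obtain ⟨F1, hF1, -⟩ := kills_fold (Z := Set.univ) hM Set.subset_union_left hφ1 (fun s _ hs => hφ1' s hs)
  obtain ⟨F2, hF2, -⟩ := kills_fold (Z := Set.univ) hM Set.subset_union_right hφ2 (fun s _ hs => hφ2' s hs)
  refine hC.base.of_injective _ _ (F1.prod F2) ?_ (hC.base.prod _ _ hT1 hT2)
  rw [injective_iff_map_eq_one]
  intro w hw
  have hw1 : F1 w = 1 := congrArg Prod.fst hw
  have hw2 : F2 w = 1 := congrArg Prod.snd hw
  have hid : ∀ w : AK M (T1 ∪ T2), inc subset_rfl w = w := by
    have : (inc subset_rfl : AK M (T1 ∪ T2) →* AK M (T1 ∪ T2)) = MonoidHom.id _ :=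
      ak_ext fun s hs => by rw [inc_gen _ hs]; rfl
    exact fun w => DFunLike.congr_fun this w
  obtain ⟨u, hu, v, hv, rfl⟩ := mul_decomp h2 w
  have hu1 : u = 1 := by
    refine hF2 (T1 ∪ T2) subset_rfl (Set.subset_univ _) Set.subset_union_right
      (fun x hx hx' y hy => h2 x (hx.resolve_right hx') y hy) u hu v
      (bk_mono (show T1 ⊆ (T1 ∪ T2) \ T2 from fun x hx => ⟨Or.inl hx, hdisj x hx⟩) hv) ?_
    rw [hid]; exact hw2
  rw [hu1, one_mul] at hw1 ⊢
  refine hF1 (T1 ∪ T2) subset_rfl (Set.subset_univ _) Set.subset_union_left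
    (fun x hx hx' y hy => by rw [hM]; exact h2 y hy x (hx.resolve_left hx')) v hv 1
    (Subgroup.one_mem _) ?_
  rw [mul_one, hid]; exact hw1

/-- sets which are themselves separators -/
theorem self_mem (hC : ClosedE C) (hGL : ∀ n : ℕ, C (GL (Fin n) ℚ))
    (hM : ∀ s t, M s t = M t s) (h1 : ∀ s t, s ≠ t → M s t ≠ 1) {Y : Set S}
    (hY : (∃ s t, Y = {s, t}) ∨ (∀ s ∈ Y, ∀ t ∈ Y, s ≠ t → M s t = 0)) : C (AK M Y) := by
  obtain ⟨Q, _, g, hQ, hg⟩ := kills_lin hC hGL hM h1 Y
  refine hC.base.of_injective _ _ g ?_ hQ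
  rw [injective_iff_map_eq_one]
  intro w hw
  have hid : ∀ w : AK M Y, inc subset_rfl w = w := by
    have : (inc subset_rfl : AK M Y →* AK M Y) = MonoidHom.id _ :=
      ak_ext fun s hs => by rw [inc_gen _ hs]; rfl
    exact fun w => DFunLike.congr_fun this w
  have hw2 : w ∈ BK M Y Y := by
    have : BK M Y Y = ⊤ := ak_gen fun s hs => Subgroup.subset_closure ⟨s, hs, rfl⟩
    rw [this]; trivial
  refine hg Y Y hY Y subset_rfl subset_rfl subset_rfl (fun x hx hx' => absurd hx hx') w hw2 1 (Subgroup.one_mem _) ?_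
  rw [mul_one, hid]; exact hw

/-- **thin Artin groups** -/
theorem thin (hC : ClosedE C) (hGL : ∀ n : ℕ, C (GL (Fin n) ℚ))
    (hM : ∀ s t, M s t = M t s) (hd : ∀ s, M s s = 1) (h1 : ∀ s t, s ≠ t → M s t ≠ 1)
    (hT : ∀ T : Set S, T.Nonempty → ∃ v ∈ T,
      (∃ a b, ∀ t ∈ T, t ≠ v → M v t ≠ 0 → t = a ∨ t = b) ∨
      (∀ s ∈ T, ∀ t ∈ T, s ≠ v → t ≠ v → s ≠ t → M v s ≠ 0 → M v t ≠ 0 → M s t = 0))
    (h3 : ∀ a b c : S, a ≠ b → b ≠ c → a ≠ c → M a b ≠ 0 → M b c ≠ 0 → M a c ≠ 0 →
      C (AK M {a, b, c})) : ∀ T : Set S, C (AK M T) := by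
  classical
  -- removal of a vertex
  have hrem : ∀ (T : Set S) (v : S), v ∈ T → ∀ N : Set S, N = {t | t ∈ T ∧ t ≠ v ∧ M v t ≠ 0} →
      ((∃ s t, N = {s, t}) ∨ (∀ s ∈ N, ∀ t ∈ N, s ≠ t → M s t = 0)) → C (AK M (T \ {v})) →
      C (AK M (insert v N)) → C (AK M T) := by
    intro T v hv N hN hNp hT1 hT2
    have e1 : (T \ {v}) ∪ (insert v N) = T := by
      ext t
      constructor
      · rintro (h | rfl | h)
        · exact h.1
        · exact hv
        · rw [hN] at h; exact h.1
      · intro h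
        rcases eq_or_ne t v with rfl | htv
        · exact Or.inr (Set.mem_insert _ _)
        · exact Or.inl ⟨h, htv⟩
    have e2 : (T \ {v}) ∩ (insert v N) = N := by
      ext t
      constructor
      · rintro ⟨⟨h4, h5⟩, rfl | h6⟩
        · exact absurd rfl h5
        · exact h6
      · intro h
        refine ⟨?_, Set.mem_insert_of_mem _ h⟩
        rw [hN] at h
        exact ⟨h.1, h.2.1⟩
    have hsep : Sep M ((T \ {v}) ∪ (insert v N)) ((T \ {v}) ∩ (insert v N))
        ((T \ {v}) ∩ (insert v N)) := by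
      rw [e2]
      have h4 : Sep M ((T \ {v}) ∪ (insert v N)) N (∅ ∪ N) := by
        refine Sep.add Sep.empty ?_ (fun x hx => absurd hx (by simp))
        rcases hNp with h5 | h5
        · exact Or.inl h5
        · exact Or.inr (Or.inl h5)
      rwa [Set.empty_union] at h4
    have h4 := glue_sep hC hGL hM hd h1 (T1 := T \ {v}) (T2 := insert v N) (fun s hs hs' t ht ht' => by
      have e3 : t = v := by
        rcases ht with rfl | ht
        · rfl
        · exfalso
          rw [hN] at ht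
          exact ht' ⟨ht.1, ht.2.1⟩
      subst e3
      by_contra h5
      apply hs'
      refine Set.mem_insert_of_mem _ ?_
      rw [hN]
      exact ⟨hs.1, hs.2, by rw [hM]; exact h5⟩) hsep hT1 hT2
    rwa [e1] at h4
  have hfin : ∀ n : ℕ, ∀ T : Set S, T.ncard = n → C (AK M T) := by
    intro n
    induction n using Nat.strong_induction_on with
    | _ n ih =>
      intro T hn
      have hlt : ∀ T' : Set S, T' ⊆ T → T' ≠ T → C (AK M T') := by
        intro T' h4 h5
        exact ih _ (by rw [← hn]; exact Set.ncard_lt_ncard (h4.ssubset_of_ne h5) (Set.toFinite _)) T' rfl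
      rcases T.eq_empty_or_nonempty with rfl | hne
      · exact self_mem hC hGL hM h1 (Or.inr fun s hs => absurd hs (by simp))
      obtain ⟨v, hv, hvN⟩ := hT T hne
      obtain ⟨N, hN⟩ : ∃ N : Set S, N = {t | t ∈ T ∧ t ≠ v ∧ M v t ≠ 0} := ⟨_, rfl⟩
      have hrv : C (AK M (T \ {v})) := by
        refine hlt _ Set.sdiff_subset fun h => ?_
        rw [← h] at hv
        exact hv.2 rfl
      -- edgeless neighbourhoods
      have hfree : (∀ s ∈ N, ∀ t ∈ N, s ≠ t → M s t = 0) → C (AK M T) := by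
        intro h4
        refine hrem T v hv N hN (Or.inr h4) hrv ?_
        by_cases h5 : insert v N = T
        · -- a star
          rcases N.eq_empty_or_nonempty with h6 | ⟨w, hw⟩
          · refine self_mem hC hGL hM h1 (Or.inl ⟨v, v, ?_⟩)
            rw [h6, Set.pair_eq_singleton, insert_empty_eq]
          · rw [h5]
            have hw' := hw
            rw [hN] at hw'
            have hNw : {t | t ∈ T ∧ t ≠ w ∧ M w t ≠ 0} = ({v, v} : Set S) := by
              ext t
              constructor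
              · rintro ⟨h7, h8, h9⟩
                rw [Set.pair_eq_singleton, Set.mem_singleton_iff]
                rw [← h5] at h7
                rcases h7 with h7 | h7
                · exact h7
                · exact absurd (h4 w hw t h7 h8.symm) h9
              · intro h7
                rw [Set.pair_eq_singleton, Set.mem_singleton_iff] at h7
                subst h7
                exact ⟨hv, hw'.2.1.symm, by rw [hM]; exact hw'.2.2⟩
            refine hrem T w hw'.1 {v, v} hNw.symm (Or.inl ⟨v, v, rfl⟩) ?_ ?_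
            · refine hlt _ Set.sdiff_subset fun h => ?_
              have := hw'.1
              rw [← h] at this
              exact this.2 rfl
            · refine self_mem hC hGL hM h1 (Or.inl ⟨w, v, ?_⟩)
              rw [Set.pair_eq_singleton]
        · refine hlt _ ?_ h5
          rintro t (rfl | ht)
          · exact hv
          · rw [hN] at ht; exact ht.1
      rcases hvN with ⟨a, b, hab⟩ | hfr
      · have hNab : ∀ t ∈ N, t = a ∨ t = b := by
          intro t ht
          rw [hN] at ht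
          exact hab t ht.1 ht.2.1 ht.2.2
        by_cases h4 : a ∈ N ∧ b ∈ N ∧ a ≠ b ∧ M a b ≠ 0
        · obtain ⟨ha, hb, hne, hm⟩ := h4
          have e1 : N = {a, b} := by
            ext t
            constructor
            · exact hNab t
            · rintro (rfl | rfl)
              · exact ha
              · exact hb
          refine hrem T v hv N hN (Or.inl ⟨a, b, e1⟩) hrv ?_
          rw [e1]
          rw [hN] at ha hb
          exact h3 v a b ha.2.1.symm hne hb.2.1.symm ha.2.2 hm hb.2.2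
        · apply hfree
          intro s hs t ht hst
          by_contra h5
          apply h4
          rcases hNab s hs with rfl | rfl
          · rcases hNab t ht with rfl | rfl
            · exact absurd rfl hst
            · exact ⟨hs, ht, hst, h5⟩
          · rcases hNab t ht with rfl | rfl
            · exact ⟨ht, hs, hst.symm, by rw [hM]; exact h5⟩
            · exact absurd rfl hst
      · apply hfree
        intro s hs t ht hst
        rw [hN] at hs ht
        exact hfr s hs.1 t ht.1 hs.2.1 ht.2.1 hst hs.2.2 ht.2.2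
  exact fun T => hfin _ T rfl

end

end Pool.Agent.U68.AR
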